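import Pool.Agent.H5.FL.Stm2

/-!
# Third batch (crew FL): Bayes' formula is proved, not assumed

`SPolicy` is the model exactly as in the problem: the searcher's filtration is generated by the
signal `Y = ∑_j X_j` (up to null events).  We derive the field `bayes` of `Policy` by a Girsanov
argument, so that every `SPolicy` is a `Policy`.
-/

set_option autoImplicit false

open MeasureTheory ProbabilityTheory Filter Topology
open scoped NNReal ENNReal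

universe u

namespace H5.FL

/-- A search policy: the searcher's filtration `obs` is generated by the signal
`Y_t = ∑_j X_j(t)` up to null events, the observed box `J` is progressively measurable for `obs`,
`X_j = ∫ 1_{J=j} dY`, and the controlled equation is stated as a martingale problem. -/
structure SPolicy (N : ℕ) (μ : ℝ) (Ω : Type u) [mΩ : MeasurableSpace Ω] (P : Measure Ω) where
  /-- the box that hides the object -/
  jstar : Ω → Fin N
  /-- uniform prior -/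
  prior : ∀ i, P (jstar ⁻¹' {i}) = (N : ℝ≥0∞)⁻¹
  /-- the filtration of the searcher's observations -/
  obs : Filtration ℝ≥0 mΩ
  /-- the filtration of an outside observer who also knows `jstar` -/
  full : Filtration ℝ≥0 mΩ
  obs_le : ∀ t, obs t ≤ full t
  jstar_full : Measurable[full 0] jstar
  /-- the box observed at time `t` -/
  J : ℝ≥0 → Ω → Fin N
  J_prog : IsProgressive obs J
  /-- `X t ω j = ∫_0^t 1_{J_s = j} dY_s`, the signal received while box `j` was observed -/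
  X : ℝ≥0 → Ω → Fin N → ℝ
  X_zero : ∀ ω j, X 0 ω j = 0
  X_cont : ∀ ω, Continuous (fun t => X t ω)
  X_adapted : ∀ t, Measurable[obs t] (X t)
  /-- up to null events the searcher sees only the signal `Y = ∑_j X_j` -/
  obs_gen : ∀ t A, MeasurableSet[obs t] A → ∃ B : Set Ω,
    MeasurableSet[⨆ s ∈ Set.Iic t, MeasurableSpace.comap (fun ω => ∑ j, X s ω j) inferInstance] B ∧
    A =ᵐ[P] B
  /-- the martingale problem of `dX_j = 1_{J = j} (dW + μ 1_{j = jstar} dt)`,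
  `d clock_j = 1_{J = j} dt` -/
  dynamics : ∀ f, IsTest f → Martingale (fun t ω => f (X t ω, clock J t ω)
      - ∫ s in (0 : ℝ)..t, gen μ f (X s.toNNReal ω) (clock J s.toNNReal ω) (J s.toNNReal ω)
          (J s.toNNReal ω = jstar ω)) full P

/-- `h_R(y) = R y/(R+y)` -/
noncomputable def hR (R y : ℝ) : ℝ := R * y / (R + y)

/-- the test function `h_R(e^{-ξ_i}) cos(θ ∑ x + α)` -/
noncomputable def fR {N : ℕ} (R μ θ α : ℝ) (i : Fin N) (y : (Fin N → ℝ) × (Fin N → ℝ)) : ℝ :=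
  hR R (Real.exp (-(lin μ y i))) * Real.cos (θ * (∑ j, y.1 j) + α)

/-- (M) `fR` is a test function (`R > 0`); generator when box `i` hides the object
(`hit ↔ j = i`).  Put `y = e^{-ξ_i}`, `c = cos(θ ∑x + α)`.
`j ≠ i`: `gen = -½ θ² fR`.  `j = i`: `∂_x y = -μ y`, `∂_x² y = μ² y`, `∂_τ y = ½ μ² y` and
`gen = ½ h''(y) μ² y² c + μ (h - h' y) ∂c - ½ θ² h c`, with `h' = R²/(R+y)²`,
`h'' = -2R²/(R+y)³`, `h - h' y = R y²/(R+y)²`.  Hence the error bound; for `θ = α = 0` (`c = 1`)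
`gen ≤ 0`. -/
def S_FRT : Prop := ∀ (N : ℕ) (R μ θ α : ℝ) (i : Fin N), 0 < R →
  IsTest (fR R μ θ α i) ∧
  (∀ (x τ : Fin N → ℝ) (j : Fin N) (hit : Prop) [Decidable hit], (hit ↔ j = i) →
    |gen μ (fR R μ θ α i) x τ j hit + (1 / 2) * θ ^ 2 * fR R μ θ α i (x, τ)|
      ≤ (μ ^ 2 + |μ * θ|) * (Real.exp (-(lin μ (x, τ) i)) ^ 2
        / (R + Real.exp (-(lin μ (x, τ) i)))) ∧
    gen μ (fR R μ 0 0 i) x τ j hit ≤ 0)

/-- (M) integrability.  dep S_FRT.  `1_{jstar=i} e^{-ξ_i(t)}` is integrable with integral `≤ 1`: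
dynamics for `fR R μ 0 0 i` on the event `{jstar = i} ∈ full 0` gives
`E[1 h_R(e^{-ξ_i(t)})] ≤ E[1 h_R(1)] ≤ 1`; `R → ∞` (monotone convergence / Fatou). -/
def S_GIN : Prop := ∀ (N : ℕ) (μ : ℝ) (Ω : Type u) [mΩ : MeasurableSpace Ω] (P : Measure Ω)
  [IsProbabilityMeasure P] (π : SPolicy N μ Ω P) (i : Fin N) (t : ℝ≥0),
  Integrable ((π.jstar ⁻¹' {i}).indicator
    (fun ω => Real.exp (-(lin μ (π.X t ω, clock π.J t ω) i)))) P ∧
  ∫ ω in π.jstar ⁻¹' {i}, Real.exp (-(lin μ (π.X t ω, clock π.J t ω) i)) ∂P ≤ 1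

/-- (M/L) one step.  deps S_FRT, S_GIN.  For `A ∈ full s`, `A ⊆ {jstar = i}`, put
`m(r) = E[1_A e^{-ξ_i(r)} cos(θ Y_r + α)]`, `r ≥ s`.  Dynamics for `fR R μ θ α i` on `A` and
`R → ∞` (domination: `h_R(y) ≤ y`, `y²/(R+y) ≤ y`, `y = e^{-ξ_i(r)}` integrable on `{jstar = i}` with
integral `≤ 1` uniformly in `r`; the error `y²/(R+y) → 0` pointwise) give
`m(t') - m(s) = -½ θ² ∫_s^{t'} m(r) dr` for all `t' ≥ s`, so `m` is continuous and
`m(t) = m(s) e^{-½θ²(t-s)}`. -/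
def S_ONE : Prop := ∀ (N : ℕ) (μ : ℝ) (Ω : Type u) [mΩ : MeasurableSpace Ω] (P : Measure Ω)
  [IsProbabilityMeasure P] (π : SPolicy N μ Ω P) (i : Fin N) (θ α : ℝ) (s t : ℝ≥0), s ≤ t →
  ∀ A, MeasurableSet[π.full s] A → A ⊆ π.jstar ⁻¹' {i} →
  ∫ ω in A, Real.exp (-(lin μ (π.X t ω, clock π.J t ω) i))
      * Real.cos (θ * (∑ j, π.X t ω j) + α) ∂P
    = Real.exp (-(1 / 2) * θ ^ 2 * ((t : ℝ) - s)) *
      ∫ ω in A, Real.exp (-(lin μ (π.X s ω, clock π.J s ω) i))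
        * Real.cos (θ * (∑ j, π.X s ω j) + α) ∂P

/-- (L) the law of the signal under the changed measures does not depend on `i`.  deps S_ONE,
S_GIN.  For `A` in the σ-algebra generated by `Y_s`, `s ≤ t`, the number
`Q_i(A) = E[1_A 1_{jstar=i} e^{-ξ_i(t)}]` does not depend on `i`.  By S_ONE with `θ = α = 0`
`Q_i(A) = E[1_A 1_{jstar=i} e^{-ξ_i(r)}]` for `A ∈ full r`, `r ≤ t`.  By π-λ it suffices to take
`A = {Y_{s_1} ∈ B_1, …, Y_{s_n} ∈ B_n}`, `0 = s_0 ≤ s_1 ≤ … ≤ s_n ≤ t`.  Induction on `n`, for the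
finite measures `Q_i ∘ (Y_{s_1},…,Y_{s_n})⁻¹`: for fixed `A' = {Y_{s_k} ∈ B_k, k < n}` the two
finite measures `B ↦ Q_i(A' ∩ {Y_{s_n} ∈ B})` on `ℝ` have the characteristic functions
`e^{-½θ²(s_n - s_{n-1})} E[1_{A'} 1_{jstar=i} e^{-ξ_i(s_{n-1})} e^{iθ Y_{s_{n-1}}}]`
(S_ONE with `α = 0` and `α = -π/2`), which do not depend on `i` by the induction hypothesis (they
are integrals of a function of `Y_{s_1},…,Y_{s_{n-1}}`); `n = 0`: `Y_0 = 0`, `Q_i(Ω) = 1/N`.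
Conclude with `MeasureTheory.Measure.ext_of_charFun`. -/
def S_QIN : Prop := ∀ (N : ℕ) (μ : ℝ) (Ω : Type u) [mΩ : MeasurableSpace Ω] (P : Measure Ω)
  [IsProbabilityMeasure P] (π : SPolicy N μ Ω P) (i k : Fin N) (t : ℝ≥0) (A : Set Ω),
  MeasurableSet[⨆ s ∈ Set.Iic t,
    MeasurableSpace.comap (fun ω => ∑ j, π.X s ω j) inferInstance] A →
  ∫ ω in A ∩ π.jstar ⁻¹' {i}, Real.exp (-(lin μ (π.X t ω, clock π.J t ω) i)) ∂P
    = ∫ ω in A ∩ π.jstar ⁻¹' {k}, Real.exp (-(lin μ (π.X t ω, clock π.J t ω) k)) ∂P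

/-- (M) Bayes' formula.  deps S_QIN, S_GIN.  Let `Q(A) = Q_i(A)` (all `i`) for `A ∈ obs t`
(S_QIN and `obs_gen`; the densities are integrable).  As `e^{ξ_i(t)}` is `obs t`-measurable,
`P(A ∩ {jstar = i}) = ∫_A e^{ξ_i(t)} dQ` and, with `π_i = e^{ξ_i}/∑_k e^{ξ_k}`,
`∫_A π_i dP = ∑_k ∫_{A ∩ {jstar=k}} π_i dP = ∑_k ∫_A π_i e^{ξ_k} dQ = ∫_A e^{ξ_i} dQ`. -/
def S_BAY : Prop := ∀ (N : ℕ) (μ : ℝ) (Ω : Type u) [mΩ : MeasurableSpace Ω] (P : Measure Ω)
  [IsProbabilityMeasure P] (π : SPolicy N μ Ω P) (t : ℝ≥0) (j : Fin N),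
  P[(π.jstar ⁻¹' {j}).indicator (fun _ => (1 : ℝ)) | π.obs t]
    =ᵐ[P] fun ω => post μ π.X π.J t ω j

/-- Every `SPolicy` is a `Policy`, once Bayes' formula is known. -/
def SPolicy.toPolicy {N : ℕ} {μ : ℝ} {Ω : Type u} [mΩ : MeasurableSpace Ω] {P : Measure Ω}
    (π : SPolicy N μ Ω P)
    (hb : ∀ (t : ℝ≥0) (j : Fin N), P[(π.jstar ⁻¹' {j}).indicator (fun _ => (1 : ℝ)) | π.obs t]
      =ᵐ[P] fun ω => post μ π.X π.J t ω j) : Policy N μ Ω P where
  jstar := π.jstar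
  prior := π.prior
  obs := π.obs
  full := π.full
  obs_le := π.obs_le
  jstar_full := π.jstar_full
  J := π.J
  J_prog := π.J_prog
  X := π.X
  X_zero := π.X_zero
  X_cont := π.X_cont
  X_adapted := π.X_adapted
  dynamics := π.dynamics
  bayes := hb

end H5.FL
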