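import Pool.Agent.H5.FL.Main2
import Pool.Agent.H1.FL.EXP
import Pool.Agent.H36.FL.Small
import Pool.Agent.H36.FL.NM2
import Pool.Agent.H49.FL.ATN
import Pool.Agent.H49.FL.CHI
import Pool.Agent.H49.FL.CHL
import Pool.Agent.H50.FL.COT
import Pool.Agent.H50.FL.UUT
import Pool.Agent.H54.FL.Gc2
import Pool.Agent.H54.FL.Gdr
import Pool.Agent.H54.FL.Smd
import Pool.Agent.H54.FL.Tst
import Pool.Agent.H55.FL.BEQ
import Pool.Agent.H55.FL.FSM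
import Pool.Agent.H55.FL.JEN
import Pool.Agent.H60.FL.LOW
import Pool.Agent.H60.FL.UPP
import Pool.Agent.H65.FL.FAC
import Pool.Agent.H65.FL.GBD
import Pool.Agent.H65.FL.PHB
import Pool.Agent.H75.FL.DHF
import Pool.Agent.H75.FL.OPT
import Pool.Agent.H75.FL.STP
import Pool.Agent.H78.FL.CLK
import Pool.Agent.H78.FL.HIT
import Pool.Agent.H83.FL.EEE
import Pool.Agent.H83.FL.JNB
import Pool.Agent.H85.FL.DET
import Pool.Agent.H99.FL.GCD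
import Pool.Agent.H99.FL.OBS
import Pool.Agent.H99.FL.PM1
import Pool.Agent.H99.FL.PM2
import Pool.Agent.H31.FL.QIN
import Pool.Agent.H56.FL.BAY
import Pool.Agent.H56.FL.GIN
import Pool.Agent.H60.FL.FRT
import Pool.Agent.H36.FL.NM1
import Pool.Agent.H5.FL.Stm3

set_option autoImplicit false

universe u v

namespace H5.FL

theorem p_RCC : S_RCC := H36.FL.t_RCC
theorem p_PMN : S_PMN := H36.FL.t_PMN
theorem p_PTC : S_PTC := H36.FL.t_PTC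
theorem p_PHD : S_PHD := H36.FL.t_PHD p_PTC
theorem p_EEE : S_EEE := H83.FL.t_EEE p_PMN
theorem p_JEN : S_JEN := H55.FL.t_JEN p_RCC p_EEE
theorem p_PHB : S_PHB := H65.FL.t_PHB p_PTC p_PHD p_PMN
theorem p_GGD : S_GGD := H99.FL.t_GGD
theorem p_CLO : S_CLO := H99.FL.t_CLO p_PHD p_GGD p_PMN
theorem p_DHF : S_DHF := H75.FL.t_DHF
theorem p_DGP : S_DGP := H99.FL.t_DGP p_GGD p_RCC p_DHF
theorem p_FAC : S_FAC := H65.FL.t_FAC p_PHD p_CLO p_DGP p_PMN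
theorem p_FSM : S_FSM := H55.FL.t_FSM p_PHD p_EEE
theorem p_FCE : S_FCE := H65.FL.t_FCE p_FAC p_FSM
theorem p_SMD : S_SMD := H54.FL.t_SMD
theorem p_GC2 : S_GC2 := H54.FL.t_GC2 p_PTC p_PHD p_SMD
theorem p_GDR : S_GDR := H54.FL.t_GDR p_PHD p_SMD
theorem p_GBD : S_GBD := H65.FL.t_GBD p_PHB p_SMD
theorem p_TST : S_TST := H54.FL.t_TST p_GC2 p_GDR p_GBD p_SMD
theorem p_JNB : S_JNB := H83.FL.t_JNB p_JEN p_SMD
theorem p_BEQ : S_BEQ := H55.FL.t_BEQ p_EEE p_FSM p_SMD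
theorem p_OPT : S_OPT.{u} := H75.FL.t_OPT
theorem p_CLK : S_CLK.{u} := H78.FL.t_CLK
theorem p_OBS : S_OBS.{u} := H99.FL.t_OBS p_CLK p_TST p_GBD p_SMD p_GC2 p_PTC p_PHD
theorem p_EXP : S_EXP.{u} := H1.FL.t_EXP p_CLK p_OBS p_OPT p_GBD p_TST p_PTC p_PHD p_SMD
theorem p_HIT : S_HIT.{u} := H78.FL.t_HIT p_CLK
theorem p_LOW : S_LOW.{u} := H60.FL.t_LOW p_EXP p_HIT p_CLK p_JNB p_FCE p_GBD p_SMD

theorem p_UPP : S_UPP.{u} :=
  H60.FL.t_UPP p_EXP p_HIT p_CLK p_BEQ p_GBD p_SMD p_GC2 p_PHD p_PTC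
theorem p_CHI : S_CHI := H49.FL.t_CHI
theorem p_CHL : S_CHL := H49.FL.t_CHL
theorem p_ATN : S_ATN := H49.FL.t_ATN
theorem p_COT : S_COT := H50.FL.t_COT
theorem p_UUT : S_UUT := H50.FL.t_UUT p_CHI
theorem p_STP : S_STP.{u} := H75.FL.t_STP p_OPT p_COT p_CLK
theorem p_NM1 : S_NM1.{u} := H36.FL.t_NM1 p_STP p_ATN p_CLK
theorem p_NM2 : S_NM2.{u} := H36.FL.t_NM2 p_NM1 p_CLK
theorem p_DET : S_DET := H85.FL.t_DET
theorem p_PM1 : S_PM1.{u} := H99.FL.t_PM1 p_UUT p_CHI p_CHL p_CLK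
theorem p_PM2 : S_PM2.{u} := H99.FL.t_PM2 p_PM1 p_CLK
theorem p_FLF : S_FLF.{u} := H99.FL.t_FLF p_PM2 p_NM2 p_DET p_CLK p_SMD
theorem p_FRT : S_FRT := H60.FL.t_FRT
theorem p_GIN : S_GIN.{u} := H56.FL.t_GIN p_FRT
theorem p_QIN (hONE : S_ONE.{u}) : S_QIN.{u} := H31.FL.t_QIN p_GIN hONE
theorem p_BAY (hONE : S_ONE.{u}) : S_BAY.{u} := H56.FL.t_BAY (p_QIN hONE) p_GIN

end H5.FL
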