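import Pool.Agent.H5.FL.Stm3

/-!
# Fourth batch (crew FL): the literal Brownian model is an `SPolicy`

`BPolicy` uses Mathlib's Brownian motion and the Itô integral (`L²`-limit of integrals of simple
processes).  Itô's formula (in expectation) shows that it solves the martingale problem.
-/

set_option autoImplicit false

open MeasureTheory ProbabilityTheory Filter Topology
open scoped NNReal ENNReal

universe u

namespace H5.FL

/-- `W` is a Brownian motion with respect to the filtration `F`. -/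
def IsFBM {Ω : Type u} [mΩ : MeasurableSpace Ω] (F : Filtration ℝ≥0 mΩ) (W : ℝ≥0 → Ω → ℝ)
    (P : Measure Ω) : Prop :=
  IsBrownianReal W P ∧ (∀ t, Measurable[F t] (W t)) ∧
    ∀ s t : ℝ≥0, s ≤ t →
      Indep (MeasurableSpace.comap (fun ω => W t ω - W s ω) inferInstance) (F s) P

/-- a simple (vector valued) integrand: `a k` on `(p k, p (k+1)]`, `k < m`, with values in
`[-1,1]^N`. -/
structure Simple (N : ℕ) {Ω : Type u} [mΩ : MeasurableSpace Ω] (F : Filtration ℝ≥0 mΩ) where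
  m : ℕ
  p : ℕ → ℝ≥0
  p_mono : Monotone p
  a : ℕ → Ω → Fin N → ℝ
  a_meas : ∀ k, Measurable[F (p k)] (a k)
  a_le : ∀ k ω j, |a k ω j| ≤ 1

variable {N : ℕ} {Ω : Type u} [mΩ : MeasurableSpace Ω] {F : Filtration ℝ≥0 mΩ}

/-- value of the simple integrand at time `s` -/
noncomputable def Simple.val (S : Simple N F) (s : ℝ≥0) (ω : Ω) (j : Fin N) : ℝ :=
  ∑ k ∈ Finset.range S.m, if S.p k < s ∧ s ≤ S.p (k + 1) then S.a k ω j else 0

/-- its integral against `W` over `[0,t]` -/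
noncomputable def Simple.int (S : Simple N F) (W : ℝ≥0 → Ω → ℝ) (t : ℝ≥0) (ω : Ω)
    (j : Fin N) : ℝ :=
  ∑ k ∈ Finset.range S.m,
    S.a k ω j * (W (min (S.p (k + 1)) t) ω - W (min (S.p k) t) ω)

/-- `M_j(t) = ∫_0^t H_j dW` for a `[-1,1]^N`-valued integrand `H`: the Itô integral as an
`L²`-limit of the integrals of simple integrands. -/
def IsItoIntegral (F : Filtration ℝ≥0 mΩ) (P : Measure Ω) (W : ℝ≥0 → Ω → ℝ)
    (H M : ℝ≥0 → Ω → Fin N → ℝ) : Prop :=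
  (∀ t j, MemLp (fun ω => M t ω j) 2 P) ∧
  ∃ S : ℕ → Simple N F, ∀ (t : ℝ≥0) (j : Fin N),
    Tendsto (fun n => ∫ ω, (∫ s in (0 : ℝ)..t,
      ((S n).val s.toNNReal ω j - H s.toNNReal ω j) ^ 2) ∂P) atTop (𝓝 0) ∧
    Tendsto (fun n => ∫ ω, ((S n).int W t ω j - M t ω j) ^ 2 ∂P) atTop (𝓝 0)

/-- indicator vector of the observed box -/
noncomputable def ind (J : ℝ≥0 → Ω → Fin N) (t : ℝ≥0) (ω : Ω) (j : Fin N) : ℝ :=
  if J t ω = j then 1 else 0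

/-- The literal Brownian search model: `dY = dW + μ 1_{J = jstar} dt`, `W` a Brownian motion for
`full` (so independent of `jstar`), the searcher's filtration is generated by `Y` up to null
events, `M_j = ∫ 1_{J=j} dW`. -/
structure BPolicy (N : ℕ) (μ : ℝ) (Ω : Type u) [mΩ : MeasurableSpace Ω] (P : Measure Ω) where
  jstar : Ω → Fin N
  prior : ∀ i, P (jstar ⁻¹' {i}) = (N : ℝ≥0∞)⁻¹
  obs : Filtration ℝ≥0 mΩ
  full : Filtration ℝ≥0 mΩ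
  obs_le : ∀ t, obs t ≤ full t
  jstar_full : Measurable[full 0] jstar
  J : ℝ≥0 → Ω → Fin N
  J_prog : IsProgressive obs J
  W : ℝ≥0 → Ω → ℝ
  W_fbm : IsFBM full W P
  /-- the Itô integrals of `1_{J = j}` -/
  M : ℝ≥0 → Ω → Fin N → ℝ
  M_zero : ∀ ω j, M 0 ω j = 0
  M_cont : ∀ ω, Continuous (fun t => M t ω)
  M_adapted : ∀ t, Measurable[full t] (M t)
  M_ito : IsItoIntegral full P W (ind J) M
  M_sum : ∀ t ω, ∑ j, M t ω j = W t ω
  /-- `X_j(t) = ∫_0^t 1_{J=j} dY = M_j(t) + μ 1_{jstar = j} ∫_0^t 1_{J_s = j} ds` -/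
  X : ℝ≥0 → Ω → Fin N → ℝ
  X_eq : ∀ t ω j, X t ω j = M t ω j + μ * (if jstar ω = j then clock J t ω j else 0)
  X_adapted : ∀ t, Measurable[obs t] (X t)
  obs_gen : ∀ t A, MeasurableSet[obs t] A → ∃ B : Set Ω,
    MeasurableSet[⨆ s ∈ Set.Iic t, MeasurableSpace.comap (fun ω => ∑ j, X s ω j) inferInstance] B ∧
    A =ᵐ[P] B

/-- (M) simple integrals against a Brownian motion.  For `s ≤ t` and `c k = max (min (p k) t) s`
one has `I_t - I_s = ∑_k a_k (W(c (k+1)) - W(c k))`, where either `c k = c (k+1)` or `p k ≤ c k`,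
so that `a_k` is `F (c k)`-measurable and independent of the increment, which is `N(0, c(k+1)-c k)`.
(a) mean, (b) covariance: `∫_s^t H_i H_j = ∑_k a_k^i a_k^j (c(k+1) - c k)`; (c) fourth moment:
with `m_k` the partial sum up to `k` (over `[s, c k]`), `E m_k² ≤ c k - s`,
`E m_{k+1}⁴ = E m_k⁴ + 6 E[m_k² a_k²] δ_k + 3 E[a_k⁴] δ_k²`, so `E m⁴ ≤ 3 (t-s)²`. -/
def S_SI1 : Prop := ∀ (N : ℕ) (Ω : Type u) [mΩ : MeasurableSpace Ω] (P : Measure Ω)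
  [IsProbabilityMeasure P] (F : Filtration ℝ≥0 mΩ) (W : ℝ≥0 → Ω → ℝ), IsFBM F W P →
  ∀ (S : Simple N F) (s t : ℝ≥0), s ≤ t → ∀ i j : Fin N,
  Integrable (fun ω => (S.int W t ω j - S.int W s ω j) ^ 4) P ∧
  ∫ ω, (S.int W t ω j - S.int W s ω j) ^ 4 ∂P ≤ 3 * ((t : ℝ) - s) ^ 2 ∧
  ∀ A, MeasurableSet[F s] A →
    ∫ ω in A, (S.int W t ω j - S.int W s ω j) ∂P = 0 ∧
    ∫ ω in A, (S.int W t ω i - S.int W s ω i) * (S.int W t ω j - S.int W s ω j) ∂P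
      = ∫ ω in A, (∫ r in (s : ℝ)..t, S.val r.toNNReal ω i * S.val r.toNNReal ω j) ∂P

/-- (M) the same facts for the limits, `H = ind J`, `J` jointly measurable.  dep S_SI1.  `L²`
convergence for (a), (b) (`|H|, |val| ≤ 1`: at each `s` at most one summand of `val` is nonzero),
Fatou along an a.e. convergent subsequence for (c). -/
def S_IT2 : Prop := ∀ (N : ℕ) (Ω : Type u) [mΩ : MeasurableSpace Ω] (P : Measure Ω)
  [IsProbabilityMeasure P] (F : Filtration ℝ≥0 mΩ) (W : ℝ≥0 → Ω → ℝ), IsFBM F W P →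
  ∀ (J : ℝ≥0 → Ω → Fin N) (M : ℝ≥0 → Ω → Fin N → ℝ), IsProgressive F J →
  (∀ t, Measurable[F t] (M t)) → IsItoIntegral F P W (ind J) M →
  ∀ (s t : ℝ≥0), s ≤ t → ∀ i j : Fin N,
  Integrable (fun ω => (M t ω j - M s ω j) ^ 4) P ∧
  ∫ ω, (M t ω j - M s ω j) ^ 4 ∂P ≤ 3 * ((t : ℝ) - s) ^ 2 ∧
  ∀ A, MeasurableSet[F s] A →
    ∫ ω in A, (M t ω j - M s ω j) ∂P = 0 ∧
    ∫ ω in A, (M t ω i - M s ω i) * (M t ω j - M s ω j) ∂P
      = ∫ ω in A, (if i = j then clock J t ω j - clock J s ω j else 0) ∂P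

/-- (M) weights.  dep S_IT2: the two identities with a bounded `F s`-measurable weight `g`
(`condExp` or approximation by simple functions). -/
def S_WGT : Prop := ∀ (N : ℕ) (Ω : Type u) [mΩ : MeasurableSpace Ω] (P : Measure Ω)
  [IsProbabilityMeasure P] (F : Filtration ℝ≥0 mΩ) (W : ℝ≥0 → Ω → ℝ), IsFBM F W P →
  ∀ (J : ℝ≥0 → Ω → Fin N) (M : ℝ≥0 → Ω → Fin N → ℝ), IsProgressive F J →
  (∀ t, Measurable[F t] (M t)) → IsItoIntegral F P W (ind J) M →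
  ∀ (s t : ℝ≥0), s ≤ t → ∀ (i j : Fin N) (g : Ω → ℝ) (K : ℝ), Measurable[F s] g →
    (∀ ω, |g ω| ≤ K) →
    ∫ ω, g ω * (M t ω j - M s ω j) ∂P = 0 ∧
    ∫ ω, g ω * ((M t ω i - M s ω i) * (M t ω j - M s ω j)) ∂P
      = ∫ ω, g ω * (if i = j then clock J t ω j - clock J s ω j else 0) ∂P

/-- (S/M) second order Taylor expansion with modulus, `f` of class `C²` on
`E = (Fin N → ℝ) × (Fin N → ℝ)`: for every `R` and `ε > 0` there is `δ ∈ (0,1]` such that for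
`‖z‖ ≤ R`, `‖d‖ ≤ δ`
`|f(z+d) - f(z) - Df(z) d - ½ D²f(z)(d,d)| ≤ ε ‖d‖²`
(compactness: uniform continuity of `D²f` on the ball of radius `R+1`). -/
def S_TAY : Prop := ∀ (N : ℕ) (f : (Fin N → ℝ) × (Fin N → ℝ) → ℝ), ContDiff ℝ 2 f →
  ∀ R ε : ℝ, 0 < ε → ∃ δ : ℝ, 0 < δ ∧ δ ≤ 1 ∧ ∀ z d : (Fin N → ℝ) × (Fin N → ℝ),
    ‖z‖ ≤ R → ‖d‖ ≤ δ →
    |f (z + d) - f z - fderiv ℝ f z d - (1 / 2) * fderiv ℝ (fderiv ℝ f) z d d| ≤ ε * ‖d‖ ^ 2

/-- (S/M) the partial derivatives in `gen` through `fderiv`: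
`deriv (fun s => f (update x j s, τ)) (x j) = Df(x,τ)(e_j,0)`, the second one
`D²f(x,τ)(e_j,0)(e_j,0)`, and `D f(x,τ)(0,e_j)`; and all of them are continuous in `(x,τ)`. -/
def S_PAR : Prop := ∀ (N : ℕ) (f : (Fin N → ℝ) × (Fin N → ℝ) → ℝ), ContDiff ℝ 2 f →
  ∀ j : Fin N,
  (∀ x τ : Fin N → ℝ,
    deriv (fun s => f (Function.update x j s, τ)) (x j) = fderiv ℝ f (x, τ) (Pi.single j 1, 0) ∧
    iteratedDeriv 2 (fun s => f (Function.update x j s, τ)) (x j)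
      = fderiv ℝ (fderiv ℝ f) (x, τ) (Pi.single j 1, 0) (Pi.single j 1, 0) ∧
    deriv (fun s => f (x, Function.update τ j s)) (τ j) = fderiv ℝ f (x, τ) (0, Pi.single j 1)) ∧
  Continuous (fun z => fderiv ℝ f z (Pi.single j 1, 0)) ∧
  Continuous (fun z => fderiv ℝ (fderiv ℝ f) z (Pi.single j 1, 0) (Pi.single j 1, 0)) ∧
  Continuous (fun z => fderiv ℝ f z (0, Pi.single j 1))

/-- (L) Itô's formula, one short step.  deps S_IT2, S_WGT, S_TAY, S_PAR.  `Z = (X, clock)`.  For a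
test function `f`, `R`, `ε > 0` there is `δ > 0` with: for `s ≤ t ≤ s + δ` and every event
`A ∈ full s` on which `‖Z_s‖ ≤ R`,
`|E[1_A (f(Z_t) - f(Z_s) - ∫_s^t gen)]| ≤ ε (t-s)`.
`d = Z_t - Z_s = (ΔM + μ ΔD, Δclock)` with `0 ≤ ΔD, Δclock ≤ t - s`, `E|ΔM_j|⁴ ≤ 3(t-s)²`, hence
`E‖d‖² ≤ C (t-s)`, `E‖d‖⁴ ≤ C (t-s)²` for `t - s ≤ 1`.  On `‖d‖ ≤ δ'` use S_TAY (error
`ε ‖d‖²`); on `‖d‖ > δ'` everything is `≤ C_R (1 + ‖d‖²) ≤ C_R' ‖d‖⁴/δ'⁴`, expectation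
`O((t-s)²)`.  In the main terms use S_WGT with the bounded weights `1_A Df(Z_s)(e_j,0)`,
`1_A D²f(Z_s)(e_i,0)(e_j,0)` (bounded on `‖Z_s‖ ≤ R`; terms of `D²f(d,d)` containing `ΔD` or `Δclock` are
`O((t-s)^{3/2})`).  What remains is
`E[1_A ∑_j (½ ∂_j²f(Z_s) Δclock_j + μ ∂_jf(Z_s) 1_{jstar=j} Δclock_j + ∂_{τ_j}f(Z_s) Δclock_j)]`
to be compared with `E[1_A ∫_s^t gen(Z_r, J_r) dr]`: `Δclock_j = ∫_s^t 1_{J_r=j} dr`, the partial
derivatives at `Z_r` and `Z_s` differ by `≤ ε` if `‖Z_r - Z_s‖ ≤ δ'` (uniform continuity on the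
ball `R+1`) and always by `≤ 2C` (`IsTest.bdd`), with
`P(‖Z_r - Z_s‖ > δ') ≤ C (t-s)²/δ'⁴`. -/
def S_IST : Prop := ∀ (N : ℕ) (μ : ℝ) (Ω : Type u) [mΩ : MeasurableSpace Ω] (P : Measure Ω)
  [IsProbabilityMeasure P] (π : BPolicy N μ Ω P) (f : (Fin N → ℝ) × (Fin N → ℝ) → ℝ),
  IsTest f → ∀ R ε : ℝ, 0 < ε → ∃ δ : ℝ, 0 < δ ∧ ∀ s t : ℝ≥0, s ≤ t → (t : ℝ) ≤ s + δ →
  ∀ A, MeasurableSet[π.full s] A → (∀ ω ∈ A, ‖(π.X s ω, clock π.J s ω)‖ ≤ R) →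
  |∫ ω in A, (f (π.X t ω, clock π.J t ω) - f (π.X s ω, clock π.J s ω)
      - ∫ r in (s : ℝ)..t, gen μ f (π.X r.toNNReal ω) (clock π.J r.toNNReal ω)
          (π.J r.toNNReal ω) (π.J r.toNNReal ω = π.jstar ω)) ∂P| ≤ ε * ((t : ℝ) - s)

/-- (M/L) Itô's formula in expectation.  dep S_IST.  Fix `s ≤ t`, `A ∈ full s`, `R`.  Partition
`t_k = s + k (t-s)/n`, `A_k = A ∩ {‖Z_r‖ ≤ R for all r ∈ [s,t_k]} ∈ full t_k` (continuity; dense
countable set of times).  Sum S_IST over `k < n`: the sum of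
`1_{A_k}(f(Z_{t_{k+1}}) - f(Z_{t_k}) - ∫ gen)` is `1_A` times the increment over `[s, τ_n]`,
`τ_n = t_{#{k<n : A_k}}` → `τ = min(t, exit time of the ball R)` as `n → ∞` (or: compare only on the
event that `‖Z‖ ≤ R` on `[s,t]`, where `τ_n = t`, the complement having small probability as
`R → ∞`: everything is bounded by a constant `C(1 + t)`).  So
`|E[1_A (f(Z_t) - f(Z_s) - ∫_s^t gen)]| ≤ ε (t-s) + C P(sup_{[s,t]} ‖Z‖ > R)` for all `ε`, `R`. -/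
def S_IFM : Prop := ∀ (N : ℕ) (μ : ℝ) (Ω : Type u) [mΩ : MeasurableSpace Ω] (P : Measure Ω)
  [IsProbabilityMeasure P] (π : BPolicy N μ Ω P) (f : (Fin N → ℝ) × (Fin N → ℝ) → ℝ),
  IsTest f → ∀ s t : ℝ≥0, s ≤ t → ∀ A, MeasurableSet[π.full s] A →
  ∫ ω in A, (f (π.X t ω, clock π.J t ω) - f (π.X s ω, clock π.J s ω)
      - ∫ r in (s : ℝ)..t, gen μ f (π.X r.toNNReal ω) (clock π.J r.toNNReal ω)
          (π.J r.toNNReal ω) (π.J r.toNNReal ω = π.jstar ω)) ∂P = 0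

/-- (M) packaging.  deps S_IFM, S_PAR: adaptedness (the time integral of the progressively
measurable bounded process `gen`) and the conditional expectation. -/
def S_MAR : Prop := ∀ (N : ℕ) (μ : ℝ) (Ω : Type u) [mΩ : MeasurableSpace Ω] (P : Measure Ω)
  [IsProbabilityMeasure P] (π : BPolicy N μ Ω P) (f : (Fin N → ℝ) × (Fin N → ℝ) → ℝ),
  IsTest f → Martingale (fun t ω => f (π.X t ω, clock π.J t ω)
      - ∫ s in (0 : ℝ)..t, gen μ f (π.X s.toNNReal ω) (clock π.J s.toNNReal ω)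
          (π.J s.toNNReal ω) (π.J s.toNNReal ω = π.jstar ω)) π.full P

end H5.FL
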