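import Pool.Agent.H5.FL.Main3
import Pool.Agent.H5.FL.Stm4
import Pool.Agent.H78.FL.CLK

/-! The literal Brownian model is an `SPolicy`. -/

set_option autoImplicit false

open MeasureTheory ProbabilityTheory
open scoped NNReal ENNReal

universe u v

namespace H5.FL

theorem clock_zero4 {N : ℕ} {Ω : Type u} (J : ℝ≥0 → Ω → Fin N) (ω : Ω) (j : Fin N) :
    clock J 0 ω j = 0 := by
  simp [clock]

theorem clock_cont4 {N : ℕ} {Ω : Type u} [mΩ : MeasurableSpace Ω] (F : Filtration ℝ≥0 mΩ)
    (J : ℝ≥0 → Ω → Fin N) (hJ : IsProgressive F J) (ω : Ω) :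
    Continuous fun t => clock J t ω := by
  have hJ := H78.FL.J_joint F J hJ
  refine continuous_pi (fun j => ?_)
  have hJω : Measurable fun s : ℝ => J s.toNNReal ω :=
    hJ.comp (measurable_real_toNNReal.prodMk measurable_const)
  have hF : Measurable fun s : ℝ => if J s.toNNReal ω = j then (1 : ℝ) else 0 :=
    Measurable.ite (hJω (measurableSet_singleton j)) measurable_const measurable_const
  have hint : ∀ a b : ℝ, IntervalIntegrable
      (fun s : ℝ => if J s.toNNReal ω = j then (1 : ℝ) else 0) volume a b := by
    intro a b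
    refine (intervalIntegrable_const (c := (1 : ℝ))).mono_fun hF.aestronglyMeasurable ?_
    refine Filter.Eventually.of_forall (fun s => ?_)
    simp only
    split_ifs <;> simp
  exact (intervalIntegral.continuous_primitive hint 0).comp NNReal.continuous_coe

/-- Every literal Brownian search policy is an `SPolicy`. -/
def BPolicy.toSPolicy {N : ℕ} {μ : ℝ} {Ω : Type u} [mΩ : MeasurableSpace Ω] {P : Measure Ω}
    (π : BPolicy N μ Ω P)
    (hm : ∀ f, IsTest f → Martingale (fun t ω => f (π.X t ω, clock π.J t ω)
      - ∫ s in (0 : ℝ)..t, gen μ f (π.X s.toNNReal ω) (clock π.J s.toNNReal ω)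
          (π.J s.toNNReal ω) (π.J s.toNNReal ω = π.jstar ω)) π.full P) : SPolicy N μ Ω P where
  jstar := π.jstar
  prior := π.prior
  obs := π.obs
  full := π.full
  obs_le := π.obs_le
  jstar_full := π.jstar_full
  J := π.J
  J_prog := π.J_prog
  X := π.X
  X_zero := by
    intro ω j
    rw [π.X_eq, π.M_zero, clock_zero4]
    simp
  X_cont := by
    intro ω
    have h1 := π.M_cont ω
    have h2 := clock_cont4 π.obs π.J π.J_prog ω
    refine continuous_pi (fun j => ?_)
    have e : (fun t => π.X t ω j) = fun t => π.M t ω j +
        μ * (if π.jstar ω = j then clock π.J t ω j else 0) := by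
      funext t
      exact π.X_eq t ω j
    rw [e]
    have h3 : Continuous fun t => π.M t ω j := (continuous_apply j).comp h1
    have h4 : Continuous fun t => clock π.J t ω j := (continuous_apply j).comp h2
    split_ifs
    · exact h3.add (continuous_const.mul h4)
    · exact h3.add (continuous_const.mul continuous_const)
  X_adapted := π.X_adapted
  obs_gen := π.obs_gen
  dynamics := hm

end H5.FL
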