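import Pool.Agent.H5.FL.All
import Pool.Agent.H5.FL.Main4
import Pool.Agent.H32.FL.SI1
import Pool.Agent.H32.FL.WGT
import Pool.Agent.H16.FL.IT2
import Pool.Agent.H38.FL.TAY
import Pool.Agent.H9.FL.IFM
import Pool.Agent.H56.FL.MAR
import Pool.Agent.H41.FL.One
import Pool.Agent.H99.FL.IST

/-! Assembly of the fourth batch (literal Brownian model). -/

set_option autoImplicit false

open MeasureTheory ProbabilityTheory
open scoped NNReal ENNReal

universe u v

namespace H5.FL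

theorem p_ONE : S_ONE.{u} := H41.FL.t_ONE p_FRT p_GIN
theorem q_BAY : S_BAY.{u} := p_BAY p_ONE
theorem p_SI1 : S_SI1.{u} := H32.FL.t_SI1
theorem p_IT2 : S_IT2.{u} := H16.FL.t_IT2 p_SI1
theorem p_WGT : S_WGT.{u} := H32.FL.t_WGT p_IT2
theorem p_TAY : S_TAY := H38.FL.t_TAY
theorem p_PAR : S_PAR := H38.FL.t_PAR
theorem p_IST : S_IST.{u} := H99.FL.t_IST p_IT2 p_WGT p_TAY p_PAR
theorem p_MAR (hIST : S_IST.{u}) : S_MAR.{u} := H56.FL.t_MAR (H9.FL.t_IFM hIST) p_PAR

/-- every literal Brownian policy is an `SPolicy` -/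
noncomputable def BPolicy.toS (hIST : S_IST.{u}) {N : ℕ} {μ : ℝ} {Ω : Type u}
    [mΩ : MeasurableSpace Ω] {P : Measure Ω} [IsProbabilityMeasure P] (π : BPolicy N μ Ω P) :
    SPolicy N μ Ω P :=
  π.toSPolicy (fun f hf => p_MAR hIST N μ Ω P π f hf)

end H5.FL
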