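import Mathlib

/-!
# Follow-the-leader search under a uniform prior: definitions (MP_96872c_an)

The weak formulation.  `N` boxes, drift `μ`.  `X j t = ∫_0^t 1_{J_s = j} dY_s` is the part of the
signal seen while box `j` is observed and `clock j t = ∫_0^t 1_{J_s = j} ds` the time spent on it.
The controlled equation `dX_j = 1_{J = j} (dW + μ 1_{j = j*} dt)`, `d clock_j = 1_{J = j} dt`
is stated as the martingale problem of its generator `gen`.
-/

set_option autoImplicit false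

open MeasureTheory ProbabilityTheory
open scoped NNReal ENNReal

universe u

namespace H5.FL

/-- The generator of `(X, clock)` while box `j` is observed:
`½ ∂²f/∂x_j² + μ 1_{hit} ∂f/∂x_j + ∂f/∂τ_j`, where `hit` says that box `j` hides the object. -/
noncomputable def gen {N : ℕ} (μ : ℝ) (f : (Fin N → ℝ) × (Fin N → ℝ) → ℝ)
    (x τ : Fin N → ℝ) (j : Fin N) (hit : Prop) [Decidable hit] : ℝ :=
  (1 / 2) * iteratedDeriv 2 (fun s => f (Function.update x j s, τ)) (x j)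
    + (if hit then μ else 0) * deriv (fun s => f (Function.update x j s, τ)) (x j)
    + deriv (fun s => f (x, Function.update τ j s)) (τ j)

/-- Test functions: bounded `C²` functions with bounded partial derivatives. -/
structure IsTest {N : ℕ} (f : (Fin N → ℝ) × (Fin N → ℝ) → ℝ) : Prop where
  smooth : ContDiff ℝ 2 f
  bdd : ∃ C : ℝ, ∀ x τ : Fin N → ℝ, |f (x, τ)| ≤ C ∧ ∀ j : Fin N,
    |deriv (fun s => f (Function.update x j s, τ)) (x j)| ≤ C ∧
    |iteratedDeriv 2 (fun s => f (Function.update x j s, τ)) (x j)| ≤ C ∧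
    |deriv (fun s => f (x, Function.update τ j s)) (τ j)| ≤ C

/-- time spent on box `j` up to time `t`: `∫_0^t 1_{J_s = j} ds`. -/
noncomputable def clock {N : ℕ} {Ω : Type u} (J : ℝ≥0 → Ω → Fin N) (t : ℝ≥0) (ω : Ω)
    (j : Fin N) : ℝ :=
  ∫ s in (0 : ℝ)..t, if J s.toNNReal ω = j then (1 : ℝ) else 0

/-- the unnormalised weight `z_j(t) = (1/N) exp(μ X_j(t) - ½ μ² clock_j(t))` (uniform prior). -/
noncomputable def zz {N : ℕ} {Ω : Type u} (μ : ℝ) (X : ℝ≥0 → Ω → Fin N → ℝ)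
    (J : ℝ≥0 → Ω → Fin N) (t : ℝ≥0) (ω : Ω) (j : Fin N) : ℝ :=
  (1 / (N : ℝ)) * Real.exp (μ * X t ω j - (1 / 2) * μ ^ 2 * clock J t ω j)

/-- the posterior `π_j(t) = z_j(t) / ∑_i z_i(t)`. -/
noncomputable def post {N : ℕ} {Ω : Type u} (μ : ℝ) (X : ℝ≥0 → Ω → Fin N → ℝ)
    (J : ℝ≥0 → Ω → Fin N) (t : ℝ≥0) (ω : Ω) (j : Fin N) : ℝ :=
  zz μ X J t ω j / ∑ i, zz μ X J t ω i

/-- A search policy for `N` boxes with drift `μ` and uniform prior, in the weak sense. -/
structure Policy (N : ℕ) (μ : ℝ) (Ω : Type u) [mΩ : MeasurableSpace Ω] (P : Measure Ω) where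
  /-- the box that hides the object -/
  jstar : Ω → Fin N
  /-- uniform prior -/
  prior : ∀ i, P (jstar ⁻¹' {i}) = (N : ℝ≥0∞)⁻¹
  /-- the filtration of the searcher's observations -/
  obs : Filtration ℝ≥0 mΩ
  /-- the filtration of an outside observer who also knows `jstar` -/
  full : Filtration ℝ≥0 mΩ
  obs_le : ∀ t, obs t ≤ full t
  jstar_full : Measurable[full 0] jstar
  /-- the box observed at time `t` -/
  J : ℝ≥0 → Ω → Fin N
  J_prog : IsProgressive obs J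
  /-- `X t ω j = ∫_0^t 1_{J_s = j} dY_s`, the signal received while box `j` was observed -/
  X : ℝ≥0 → Ω → Fin N → ℝ
  X_zero : ∀ ω j, X 0 ω j = 0
  X_cont : ∀ ω, Continuous (fun t => X t ω)
  X_adapted : ∀ t, Measurable[obs t] (X t)
  /-- the martingale problem of `dX_j = 1_{J = j} (dW + μ 1_{j = jstar} dt)`,
  `d clock_j = 1_{J = j} dt` -/
  dynamics : ∀ f, IsTest f → Martingale (fun t ω => f (X t ω, clock J t ω)
      - ∫ s in (0 : ℝ)..t, gen μ f (X s.toNNReal ω) (clock J s.toNNReal ω) (J s.toNNReal ω)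
          (J s.toNNReal ω = jstar ω)) full P
  /-- Bayes' formula: `π_j(t)` is the conditional probability of `jstar = j` given the
  observations up to time `t` -/
  bayes : ∀ t j, P[(jstar ⁻¹' {j}).indicator (fun _ => (1 : ℝ)) | obs t]
    =ᵐ[P] fun ω => post μ X J t ω j

/-- the stopping time `T = inf {t : max_j π_j(t) ≥ 1 - ε}` (with value `∞` if there is none). -/
noncomputable def stopT {N : ℕ} {μ : ℝ} {Ω : Type u} [MeasurableSpace Ω] {P : Measure Ω}
    (ε : ℝ) (π : Policy N μ Ω P) (ω : Ω) : ℝ≥0∞ :=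
  ⨅ (t : ℝ≥0) (_ : ∃ j, 1 - ε ≤ post μ π.X π.J t ω j), (t : ℝ≥0∞)

/-- The Posner–Rumsey value: the cost of follow-the-leader under the uniform prior. -/
noncomputable def ftlCost (N : ℕ) (μ ε : ℝ) : ℝ :=
  2 / μ ^ 2 * (((N : ℝ) - 2) / ((N : ℝ) - 1) * ((N : ℝ) * (1 - ε) - 1)
    + (2 * (1 - ε) - 1) * Real.log (((N : ℝ) - 1) * (1 - ε) / ε))

/-- The policy always observes a leader while the other boxes stay at a common posterior
(this is how follow-the-leader runs from the uniform prior). -/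
def LeaderFollowers {N : ℕ} {μ : ℝ} {Ω : Type u} [MeasurableSpace Ω] {P : Measure Ω}
    (ε : ℝ) (π : Policy N μ Ω P) : Prop :=
  ∀ᵐ ω ∂P, ∀ t : ℝ≥0, (t : ℝ≥0∞) < stopT ε π ω →
    (∀ i, post μ π.X π.J t ω i ≤ post μ π.X π.J t ω (π.J t ω)) ∧
    ∀ i, i ≠ π.J t ω →
      post μ π.X π.J t ω i = (1 - post μ π.X π.J t ω (π.J t ω)) / ((N : ℝ) - 1)

/-! ### The dual certificate -/

/-- the rational branch -/
noncomputable def rr (M x : ℝ) : ℝ :=
  (1 - (M - 1) * x ^ 2 - M / (M - 1) * x ^ 2 * (1 - x)) / (1 - x) ^ 2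

/-- `ψ = min (1 + M x/(M-1)) (rr M x)`. -/
noncomputable def psi (M x : ℝ) : ℝ := min (1 + M / (M - 1) * x) (rr M x)

/-- `ψ` frozen above `q` (`q = 1 - ε < 1`). -/
noncomputable def psiT (M q x : ℝ) : ℝ := psi M (min x q)

noncomputable def phi1 (M q x : ℝ) : ℝ := ∫ u in (1 / M)..x, psiT M q u / u ^ 2

noncomputable def phi (M q x : ℝ) : ℝ := ∫ u in (1 / M)..x, phi1 M q u

/-- the value `½ μ² · cost` as a function of `q = 1 - ε`. -/
noncomputable def VV (M q : ℝ) : ℝ :=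
  (M - 2) / (M - 1) * (M * q - 1) + (2 * q - 1) * Real.log ((M - 1) * q / (1 - q))

/-- closed form of `phi` on `[1/M, q]` up to an affine function. -/
noncomputable def gg (M p : ℝ) : ℝ :=
  (2 * p - 1) * Real.log (p / (1 - p)) + (M - 1) * Real.log (1 - p)
    - M / (M - 1) * (1 - p) * Real.log (1 - p)

/-- derivative of `gg`. -/
noncomputable def gg1 (M p : ℝ) : ℝ :=
  2 * Real.log (p / (1 - p)) + (2 * p - 1) / (p * (1 - p)) - (M - 1) / (1 - p)
    + M / (M - 1) * Real.log (1 - p) + M / (M - 1)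

/-- softmax -/
noncomputable def sm {N : ℕ} (ξ : Fin N → ℝ) (i : Fin N) : ℝ :=
  Real.exp (ξ i) / ∑ k, Real.exp (ξ k)

/-- `G(ξ) = ∑ φ(softmax_i ξ)` -/
noncomputable def GG (N : ℕ) (q : ℝ) (ξ : Fin N → ℝ) : ℝ := ∑ i, phi (N : ℝ) q (sm ξ i)

/-- `∂_j G` -/
noncomputable def G1 (N : ℕ) (q : ℝ) (ξ : Fin N → ℝ) (j : Fin N) : ℝ :=
  sm ξ j * (phi1 (N : ℝ) q (sm ξ j)
    - ∑ i, sm ξ i * phi1 (N : ℝ) q (sm ξ i))

/-- the drift bracket -/
noncomputable def BB (N : ℕ) (q : ℝ) (ξ : Fin N → ℝ) (j : Fin N) : ℝ :=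
  (1 - sm ξ j) ^ 2 * psiT (N : ℝ) q (sm ξ j)
    + sm ξ j ^ 2 * ∑ i ∈ Finset.univ.erase j, psiT (N : ℝ) q (sm ξ i)

/-- log-likelihood coordinates -/
noncomputable def lin {N : ℕ} (μ : ℝ) (y : (Fin N → ℝ) × (Fin N → ℝ)) : Fin N → ℝ :=
  fun j => μ * y.1 j - (1 / 2) * μ ^ 2 * y.2 j

/-- the test function `exp (-δ G)` -/
noncomputable def ff (N : ℕ) (q μ δ : ℝ) (y : (Fin N → ℝ) × (Fin N → ℝ)) : ℝ :=
  Real.exp (-δ * GG N q (lin μ y))

end H5.FL
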