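import Pool.Agent.H5.FL.Stm

/-! Assembly check (MP_96872c_an). -/

set_option autoImplicit false

open MeasureTheory ProbabilityTheory
open scoped NNReal ENNReal

universe u

namespace H5.FL

theorem main_of (hL : S_LOW.{u}) (hU : S_UPP.{u}) :
    ∀ (N : ℕ), 2 ≤ N → ∀ (μ : ℝ), 0 < μ → ∀ (ε : ℝ), 0 < ε → 1 / (N : ℝ) ≤ 1 - ε →
    ∀ (Ω : Type u) [MeasurableSpace Ω] (P : Measure Ω) [IsProbabilityMeasure P]
      (π : Policy N μ Ω P),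
      ENNReal.ofReal (ftlCost N μ ε) ≤ ∫⁻ ω, stopT ε π ω ∂P ∧
      (LeaderFollowers ε π → ∫⁻ ω, stopT ε π ω ∂P = ENNReal.ofReal (ftlCost N μ ε)) := by
  intro N hN μ hμ ε hε h1 Ω _ P _ π
  exact ⟨hL N hN ε hε h1 μ hμ Ω P π, fun h =>
    le_antisymm (hU N hN ε hε h1 μ hμ Ω P π h) (hL N hN ε hε h1 μ hμ Ω P π)⟩

end H5.FL
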