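import Pool.Agent.H5.FL.Stm2

/-! Final assembly (MP_96872c_an). -/

set_option autoImplicit false

open MeasureTheory ProbabilityTheory
open scoped NNReal ENNReal

universe u v

namespace H5.FL

theorem stopT_zero (hC : S_CLK.{u}) {N : ℕ} (hN : 2 ≤ N) {μ ε : ℝ} (h : 1 - ε ≤ 1 / (N : ℝ))
    {Ω : Type u} [MeasurableSpace Ω] (P : Measure Ω) [IsProbabilityMeasure P]
    (π : Policy N μ Ω P) (ω : Ω) : stopT ε π ω = 0 := by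
  have hcl := hC N μ Ω P π
  have h0 : post μ π.X π.J 0 ω ⟨0, by omega⟩ = 1 / (N : ℝ) := by
    rw [hcl.2.2.2.2.2 0 ω]
    have hl : lin μ (π.X 0 ω, clock π.J 0 ω) = fun _ => 0 := by
      funext j
      simp [lin, π.X_zero ω j, hcl.2.2.1 ω j]
    rw [hl]
    simp [sm]
  have hle : stopT ε π ω ≤ ((0 : ℝ≥0) : ℝ≥0∞) :=
    iInf₂_le (0 : ℝ≥0) ⟨⟨0, by omega⟩, by rw [h0]; exact h⟩
  simpa using hle

/-- Follow-the-leader minimises the expected time. -/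
theorem main2 (hC : S_CLK.{u}) (hL : S_LOW.{v}) (hU : S_UPP.{u}) (hF : S_FLF.{u}) :
    ∀ (N : ℕ), 2 ≤ N → ∀ (μ : ℝ), 0 < μ → ∀ (ε : ℝ), 0 < ε → ε < 1 →
    ∀ (Ω₀ : Type u) [MeasurableSpace Ω₀] (P₀ : Measure Ω₀) [IsProbabilityMeasure P₀]
      (ftl : Policy N μ Ω₀ P₀), IsFTL ftl →
    ∀ (Ω : Type v) [MeasurableSpace Ω] (P : Measure Ω) [IsProbabilityMeasure P]
      (π : Policy N μ Ω P),
      ∫⁻ ω, stopT ε ftl ω ∂P₀ ≤ ∫⁻ ω, stopT ε π ω ∂P := by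
  intro N hN μ hμ ε hε _ Ω₀ _ P₀ _ ftl hftl Ω _ P _ π
  rcases le_or_gt (1 / (N : ℝ)) (1 - ε) with h | h
  · exact (hU N hN ε hε h μ hμ Ω₀ P₀ ftl (hF N μ Ω₀ P₀ ftl ε hN hftl)).trans
      (hL N hN ε hε h μ hμ Ω P π)
  · simp [stopT_zero hC hN h.le P₀ ftl]

end H5.FL
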