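import Pool.Agent.H5.FL.Main2
import Pool.Agent.H5.FL.Stm3

/-! Final statements for `SPolicy` (MP_96872c_an). -/

set_option autoImplicit false

open MeasureTheory ProbabilityTheory
open scoped NNReal ENNReal

universe u v

namespace H5.FL

/-- the stopping time `T = inf {t : max_j π_j(t) ≥ 1 - ε}` (`∞` if there is no such `t`). -/
noncomputable def searchTime {N : ℕ} {Ω : Type u} (μ ε : ℝ) (X : ℝ≥0 → Ω → Fin N → ℝ)
    (J : ℝ≥0 → Ω → Fin N) (ω : Ω) : ℝ≥0∞ :=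
  ⨅ (t : ℝ≥0) (_ : ∃ j, 1 - ε ≤ post μ X J t ω j), (t : ℝ≥0∞)

/-- Follow-the-leader: almost surely at every time the observed box has the largest current
posterior probability (ties may be broken in any way). -/
def FollowsLeader {N : ℕ} {Ω : Type u} [MeasurableSpace Ω] (μ : ℝ) (P : Measure Ω)
    (X : ℝ≥0 → Ω → Fin N → ℝ) (J : ℝ≥0 → Ω → Fin N) : Prop :=
  ∀ᵐ ω ∂P, ∀ (t : ℝ≥0) (i : Fin N), post μ X J t ω i ≤ post μ X J t ω (J t ω)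

theorem low3 (hB : S_BAY.{u}) (hL : S_LOW.{u}) {N : ℕ} (hN : 2 ≤ N) {μ : ℝ} (hμ : 0 < μ) {ε : ℝ}
    (hε : 0 < ε) (h : 1 / (N : ℝ) ≤ 1 - ε) (Ω : Type u) [MeasurableSpace Ω] (P : Measure Ω)
    [IsProbabilityMeasure P] (π : SPolicy N μ Ω P) :
    ENNReal.ofReal (ftlCost N μ ε) ≤ ∫⁻ ω, searchTime μ ε π.X π.J ω ∂P :=
  hL N hN ε hε h μ hμ Ω P (π.toPolicy (hB N μ Ω P π))

theorem upp3 (hB : S_BAY.{u}) (hU : S_UPP.{u}) (hF : S_FLF.{u}) {N : ℕ} (hN : 2 ≤ N) {μ : ℝ}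
    (hμ : 0 < μ) {ε : ℝ} (hε : 0 < ε) (h : 1 / (N : ℝ) ≤ 1 - ε) (Ω : Type u) [MeasurableSpace Ω]
    (P : Measure Ω) [IsProbabilityMeasure P] (π : SPolicy N μ Ω P)
    (hπ : FollowsLeader μ P π.X π.J) :
    ∫⁻ ω, searchTime μ ε π.X π.J ω ∂P ≤ ENNReal.ofReal (ftlCost N μ ε) :=
  hU N hN ε hε h μ hμ Ω P (π.toPolicy (hB N μ Ω P π))
    (hF N μ Ω P (π.toPolicy (hB N μ Ω P π)) ε hN hπ)

theorem zero3 (hC : S_CLK.{u}) (hB : S_BAY.{u}) {N : ℕ} (hN : 2 ≤ N) {μ ε : ℝ}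
    (h : 1 - ε ≤ 1 / (N : ℝ)) {Ω : Type u} [MeasurableSpace Ω] (P : Measure Ω)
    [IsProbabilityMeasure P] (π : SPolicy N μ Ω P) (ω : Ω) : searchTime μ ε π.X π.J ω = 0 :=
  stopT_zero hC hN h P (π.toPolicy (hB N μ Ω P π)) ω

end H5.FL
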