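import Pool.Agent.H5.FL.Defs

/-!
# Statements of the parts (crew FL, MP_96872c_an)

Notation in the comments: `M = N ≥ 2` (real or natural), `c = M/(M-1)`, `q = 1 - ε`.
Every part is a `def S_XXX : Prop`; prove `theorem t_XXX (deps as hypotheses) : S_XXX`.
-/

set_option autoImplicit false

open MeasureTheory ProbabilityTheory
open scoped NNReal ENNReal

universe u

namespace H5.FL

/-- (M) `rr M` is concave on `[0,1)`.  With `y = 1 - x ∈ (0,1]`,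
`rr = (2-M)/y² + (2(M-1)-c)/y + (2c-M+1) - c y` and
`rr'' = [-6(M-2) + 2(2M-2-c) y]/y⁴ ≤ 0` because `(2M-2-c) ≤ 3(M-2) ⟺ (M-2)² ≥ 0` (multiply by
`M-1`) when `2M-2-c ≥ 0` (true) and `y ≤ 1`. -/
def S_RCC : Prop := ∀ M : ℝ, 2 ≤ M → ConcaveOn ℝ (Set.Ico 0 1) (rr M)

/-- (S) which branch is the minimum:
`rr M x - (1 + c x) = x (M-2)/(M-1) (1 - M x)/(1-x)²`. -/
def S_PMN : Prop := ∀ M : ℝ, 2 ≤ M →
  (∀ x, 0 ≤ x → x ≤ 1 / M → psi M x = 1 + M / (M - 1) * x) ∧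
  (∀ x, 1 / M ≤ x → x < 1 → psi M x = rr M x)

/-- (S/M) `E(x) := (1-x)² ψ(x) + (M-1) x² ψ((1-x)/(M-1)) ≤ 1` on `(0,1)`, with equality for
`x ≥ 1/M`.  For `x ≥ 1/M` put `y = (1-x)/(M-1) ≤ 1/M`: `ψ(x) = rr x`, `ψ(y) = 1 + c y` and the
identity is exact.  For `x ≤ 1/M`: `y ≥ 1/M`, `y < 1` (as `x > 0`), `ψ(x) = 1 + c x`,
`ψ(y) = rr y`, `1 - y = (M-2+x)/(M-1)`, and with `m = M-1`
`1 - E = x (m-1)(1-(m+1)x)[(m-1)² + (3m-2)x - (m-1)x²] / (m (m-1+x)²) ≥ 0`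
(for the bracket: `(3m-2)x ≥ (m-1)x²`).  The values of `ψ` come from S_PMN. -/
def S_EEE : Prop := ∀ M : ℝ, 2 ≤ M → ∀ x, 0 < x → x < 1 →
  (1 - x) ^ 2 * psi M x + (M - 1) * x ^ 2 * psi M ((1 - x) / (M - 1)) ≤ 1 ∧
  (1 / M ≤ x → (1 - x) ^ 2 * psi M x + (M - 1) * x ^ 2 * psi M ((1 - x) / (M - 1)) = 1)

/-- (S) Jensen.  deps S_RCC, S_EEE.  `ψ` is concave on `[0,1)` (ConcaveOn.inf of an affine function
and `rr`), the numbers `p i`, `i ≠ j`, are `N-1` points of `(0,1)` with sum `1 - p j`, so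
`∑_{i≠j} ψ(p i) ≤ (N-1) ψ((1-p j)/(N-1))`; then S_EEE at `x = p j`. -/
def S_JEN : Prop := ∀ N : ℕ, 2 ≤ N → ∀ p : Fin N → ℝ, (∀ i, 0 < p i) → ∑ i, p i = 1 → ∀ j,
  (1 - p j) ^ 2 * psi N (p j) + p j ^ 2 * ∑ i ∈ Finset.univ.erase j, psi N (p i) ≤ 1

/-- (S) continuity and boundedness of the frozen `ψ` (denominator `(1 - min x q)² ≠ 0`). -/
def S_PTC : Prop := ∀ M q : ℝ, 2 ≤ M → q < 1 →
  Continuous (psiT M q) ∧ ∃ C, ∀ x, 0 ≤ x → x ≤ 1 → |psiT M q x| ≤ C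

/-- (S) the fundamental theorem of calculus, twice.  dep S_PTC.  (The integrands are continuous
on `(0,∞)`; `1/M > 0`.) -/
def S_PHD : Prop := ∀ M q : ℝ, 2 ≤ M → q < 1 → ∀ x, 0 < x →
  HasDerivAt (phi M q) (phi1 M q x) x ∧ HasDerivAt (phi1 M q) (psiT M q x / x ^ 2) x

/-- (M) bounds.  deps S_PTC, S_PHD, S_PMN.  With `|psiT| ≤ C` on `[0,1]`:
`|phi1 x| ≤ C |1/x - M|`, so `|x phi1 x| ≤ C (1+M)`.  For `x ≤ 1/M ≤ q`: `psiT = 1 + c u > 0`, so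
`phi1 ≤ 0` on `(0,1/M]` and `phi x ≥ 0` there.  For `x ∈ [1/M,1]` `|phi1| ≤ C M`,
`|phi x| ≤ C M`. -/
def S_PHB : Prop := ∀ M q : ℝ, 2 ≤ M → 1 / M ≤ q → q < 1 → ∃ K : ℝ, 0 < K ∧ ∀ x, 0 < x → x ≤ 1 →
  |x * phi1 M q x| ≤ K ∧ -K ≤ phi M q x ∧ |psiT M q x| ≤ K

/-- (S) `gg' = gg1`, `gg1' = rr/p²` on `(0,1)` (also `M` real). -/
def S_GGD : Prop := ∀ M : ℝ, 2 ≤ M → ∀ p, 0 < p → p < 1 →
  HasDerivAt (gg M) (gg1 M p) p ∧ HasDerivAt (gg1 M) (rr M p / p ^ 2) p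

/-- (S) closed form on `[1/M, q]`.  deps S_PHD, S_GGD, S_PMN (there `psiT = psi = rr`): two
functions with the same second derivative and the same value and slope at `1/M`
(`phi (1/M) = phi1 (1/M) = 0`). -/
def S_CLO : Prop := ∀ M q : ℝ, 2 ≤ M → 1 / M ≤ q → q < 1 → ∀ b, 1 / M ≤ b → b ≤ q →
  phi1 M q b = gg1 M b - gg1 M (1 / M) ∧
  phi M q b = gg M b - gg M (1 / M) - gg1 M (1 / M) * (b - 1 / M)

/-- (M) the numerical inequality.  `(N-1)` times the right-hand side equals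
`(N-2)² - (N-1)² log 2 + (N/2) log 2 + (N-2)(N-1/2) log(N/(N-1))`
(`gg(1/2) = -(N-1-c/2) log 2`, `gg(1/N) = (1-2/N) log(N-1) + (N-2) log((N-1)/N)`,
`gg1(1/N) = -2 log(N-1) - 2N(N-2)/(N-1) + c log((N-1)/N)`; the `log(N-1)` terms cancel).
`N = 2`: it is `0`.  `N = 3`: `1 - (5/2) log(4/3) > 0`.  `N ≥ 4`: use `log(N/(N-1)) ≥ 1/N` and
`log 2 ≤ 0.6932`: `≥ 0.3068 N² - 1.267 N + 0.806 > 0`. -/
def S_DHF : Prop := ∀ N : ℕ, 2 ≤ N →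
  0 ≤ gg N (1 / 2) - gg N (1 / (N : ℝ)) - gg1 N (1 / (N : ℝ)) * (1 / 2 - 1 / (N : ℝ))

/-- (M) deps S_GGD, S_RCC, S_DHF.  `D(b) := gg b - gg(1/N) - gg1(1/N)(b - 1/N)` is `≥ 0` on
`[1/N, 1/2]`: `D = D' = 0` at `1/N`, `D'' = rr(b)/b²`, `rr(1/N) = N/(N-1) > 0` and `rr` is concave,
so `rr ≥ 0` on some `[1/N, x*]` and `≤ 0` on `[x*, 1/2]` (or `≥ 0` everywhere).  Hence `D'`
increases from `0` and then decreases, so `D` increases and then decreases (or only increases) on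
`[1/N,1/2]` and `D ≥ min(D(1/N), D(1/2)) ≥ 0` by S_DHF. -/
def S_DGP : Prop := ∀ N : ℕ, 2 ≤ N → ∀ b : ℝ, 1 / (N : ℝ) ≤ b → b ≤ 1 / 2 →
  0 ≤ gg N b - gg N (1 / (N : ℝ)) - gg1 N (1 / (N : ℝ)) * (b - 1 / (N : ℝ))

/-- (S) the tangent inequality.  deps S_PHD, S_CLO, S_DGP, S_PMN.  On `(0,1/N]`
`phi1' = (1 + c u)/u² > 0`, so `phi` is convex there and `phi1 ≤ 0`.  If `b ≤ 1/N`: convexity.  If
`b > 1/N`: `phi b ≥ 0` (S_CLO, S_DGP), while `phi a + phi1 a (1/N - a) ≤ phi(1/N) = 0` and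
`phi1 a (b - 1/N) ≤ 0`. -/
def S_FAC : Prop := ∀ N : ℕ, 2 ≤ N → ∀ q : ℝ, 1 / (N : ℝ) ≤ q → q < 1 → ∀ a b : ℝ,
  0 < a → a ≤ 1 / (N : ℝ) → 0 < b → b ≤ 1 / 2 → b ≤ q →
  phi N q a + phi1 N q a * (b - a) ≤ phi N q b

/-- (S/M) deps S_PHD, S_EEE.  `F(p) := phi p + (M-1) phi((1-p)/(M-1))` on `[1/M,q]` has
`F(1/M) = 0`, `F'(p) = phi1 p - phi1((1-p)/(M-1))`, `F'(1/M) = 0`,
`F'' = E(p)/(p²(1-p)²) = 1/(p²(1-p)²)` (here `psiT = psi` at both points as they are `≤ q`), and so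
has `VV M` (`h(p) = (2p-1) log(p/(1-p))` has `h'' = 1/(p²(1-p)²)`); `VV(1/M) = 0`, `VV'(1/M) = 0`.
Second claim: `VV` is nondecreasing and `≥ 0` on `[1/M,1)`. -/
def S_FSM : Prop := ∀ M q : ℝ, 2 ≤ M → 1 / M ≤ q → q < 1 → ∀ p, 1 / M ≤ p → p ≤ q →
  phi M q p + (M - 1) * phi M q ((1 - p) / (M - 1)) = VV M p ∧ 0 ≤ VV M p ∧ VV M p ≤ VV M q

/-- (S) deps S_FAC, S_FSM.  With `a = (1-q)/(N-1) ∈ (0,1/N]`: for `i ≠ j` `p i ≤ 1 - q` and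
`p i ≤ q`, so `p i ≤ 1/2`; sum the tangent inequality over `i ≠ j`
(`∑_{i≠j} (p i - a) = 0`) and use S_FSM at `p = q`. -/
def S_FCE : Prop := ∀ N : ℕ, 2 ≤ N → ∀ q : ℝ, 1 / (N : ℝ) ≤ q → q < 1 → ∀ p : Fin N → ℝ,
  (∀ i, 0 < p i) → ∑ i, p i = 1 → (∀ i, p i ≤ q) → (∃ j, p j = q) →
  VV N q ≤ ∑ i, phi N q (p i)

/-- (S) softmax calculus. -/
def S_SMD : Prop := ∀ N : ℕ, 2 ≤ N → (∀ ξ : Fin N → ℝ, (∀ i, 0 < sm ξ i ∧ sm ξ i < 1) ∧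
    ∑ i, sm ξ i = 1) ∧
  (∀ i, ContDiff ℝ 2 (fun ξ : Fin N → ℝ => sm ξ i)) ∧
  (∀ (ξ : Fin N → ℝ) (i j : Fin N) (s : ℝ), HasDerivAt (fun s => sm (Function.update ξ j s) i)
    (sm (Function.update ξ j s) i * ((if i = j then 1 else 0) - sm (Function.update ξ j s) j)) s)

/-- (S) `G` is `C²`.  deps S_PTC, S_PHD, S_SMD (`phi` is `C²` on the open set `(0,∞)`, where the
softmax takes its values). -/
def S_GC2 : Prop := ∀ N : ℕ, 2 ≤ N → ∀ q : ℝ, q < 1 → ContDiff ℝ 2 (GG N q)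

/-- (M) first and second derivative of `G` along the coordinate `j`.  deps S_PHD, S_SMD.
`∂_j G = ∑_i phi1(p_i) p_i (δ_ij - p_j) = G1`, and
`∂_j G1 = BB + (1 - 2 p_j) G1`. -/
def S_GDR : Prop := ∀ N : ℕ, 2 ≤ N → ∀ q : ℝ, q < 1 → ∀ (ξ : Fin N → ℝ) (j : Fin N) (s : ℝ),
  HasDerivAt (fun s => GG N q (Function.update ξ j s)) (G1 N q (Function.update ξ j s) j) s ∧
  HasDerivAt (fun s => G1 N q (Function.update ξ j s) j)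
    (BB N q (Function.update ξ j s) j
      + (1 - 2 * sm (Function.update ξ j s) j) * G1 N q (Function.update ξ j s) j) s

/-- (S) deps S_PHB, S_SMD. -/
def S_GBD : Prop := ∀ N : ℕ, 2 ≤ N → ∀ q : ℝ, 1 / (N : ℝ) ≤ q → q < 1 → ∃ K : ℝ, 0 < K ∧
  ∀ (ξ : Fin N → ℝ), -K ≤ GG N q ξ ∧ ∀ j, |G1 N q ξ j| ≤ K ∧ |BB N q ξ j| ≤ K

/-- (M) the test function and its generator.  deps S_GC2, S_GDR, S_GBD.
Along `s ↦ (update x j s, τ)` the point `lin μ` moves as `update (lin μ (x,τ)) j (μ s - ½ μ² τ j)`,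
along `s ↦ (x, update τ j s)` as `update (lin μ (x,τ)) j (μ x j - ½ μ² s)`.  With
`u' = G1`, `u'' = BB + (1-2p) u'` (`p = sm (lin μ (x,τ)) j`):
`∂_x f = -δ μ u' f`, `∂_x² f = μ² f (δ² u'² - δ u'')`, `∂_τ f = ½ μ² δ u' f`. -/
def S_TST : Prop := ∀ N : ℕ, 2 ≤ N → ∀ q : ℝ, 1 / (N : ℝ) ≤ q → q < 1 → ∀ μ δ : ℝ, 0 < δ →
  IsTest (ff N q μ δ) ∧
  ∀ (x τ : Fin N → ℝ) (j : Fin N) (hit : Prop) [Decidable hit],
    gen μ (ff N q μ δ) x τ j hit =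
      (1 / 2) * μ ^ 2 * ff N q μ δ (x, τ) *
        (δ ^ 2 * G1 N q (lin μ (x, τ)) j ^ 2 - δ * BB N q (lin μ (x, τ)) j)
      - δ * μ ^ 2 * ((if hit then 1 else 0) - sm (lin μ (x, τ)) j) *
        (ff N q μ δ (x, τ) * G1 N q (lin μ (x, τ)) j)

/-- (S) deps S_JEN, S_SMD: as long as all coordinates of the softmax are `≤ q` the bracket is
`≤ 1`. -/
def S_JNB : Prop := ∀ N : ℕ, 2 ≤ N → ∀ q : ℝ, q < 1 → ∀ (ξ : Fin N → ℝ), (∀ i, sm ξ i ≤ q) →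
  ∀ j, BB N q ξ j ≤ 1

/-- (S) deps S_EEE, S_FSM, S_SMD: leader `j`, equal followers: the bracket is exactly `1` and
`G` is between `0` and `VV q`. -/
def S_BEQ : Prop := ∀ N : ℕ, 2 ≤ N → ∀ q : ℝ, 1 / (N : ℝ) ≤ q → q < 1 → ∀ (ξ : Fin N → ℝ)
  (j : Fin N), sm ξ j ≤ q → (∀ i, sm ξ i ≤ sm ξ j) →
  (∀ i, i ≠ j → sm ξ i = (1 - sm ξ j) / ((N : ℝ) - 1)) →
  BB N q ξ j = 1 ∧ 0 ≤ GG N q ξ ∧ GG N q ξ ≤ VV N q

/-- hitting time of `{∃ j, c ≤ m_j}` -/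
noncomputable def hT {N : ℕ} {Ω : Type u} (c : ℝ) (m : ℝ≥0 → Ω → Fin N → ℝ) (ω : Ω) : ℝ≥0∞ :=
  ⨅ (t : ℝ≥0) (_ : ∃ j, c ≤ m t ω j), (t : ℝ≥0∞)

/-- (L) optional stopping, abstract.  Put `t_k = k t / n`, `A_k = {T > t_k}`, where `T` is the
hitting time.  By continuity of `m`, `A_k = {∀ s ≤ t_k, ∀ j, m s j < c}` is a countable
combination of events of `obs t_k` (`A_k = ∪_l ∩_{s rational multiple of t_k, or s ∈ a countable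
dense subset of [0,t_k]} ∩_j {m s j ≤ c - 1/l}` by compactness), so the hypothesis gives
`∫_{A_k} (g t_{k+1} - g t_k) = ∫_{A_k} ∫_{t_k}^{t_{k+1}} ℓ`.  Sum over `k < n`: with
`τ_n = t_{#{k < n : T > t_k}}` (the `A_k` are decreasing) this says
`E[g τ_n] - E[g 0] = E ∫_0^{τ_n} ℓ`.  `min(T,t) ≤ τ_n ≤ min(T,t) + t/n`, so `τ_n → min(T,t)`, and
`g`, `ℓ` are bounded, `g` continuous: dominated convergence. -/
def S_OPT : Prop := ∀ (Ω : Type u) [mΩ : MeasurableSpace Ω] (P : Measure Ω)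
  [IsProbabilityMeasure P] (obs : Filtration ℝ≥0 mΩ) (N : ℕ) (g ℓ : ℝ≥0 → Ω → ℝ)
  (m : ℝ≥0 → Ω → Fin N → ℝ) (K c : ℝ),
  (∀ ω, Continuous fun t => g t ω) → (∀ ω, Continuous fun t => m t ω) →
  (∀ t, Measurable[obs t] (g t)) → (∀ t, Measurable[obs t] (m t)) →
  (∀ t ω, |g t ω| ≤ K) → (∀ t ω, |ℓ t ω| ≤ K) → Measurable (Function.uncurry ℓ) →
  (∀ s t : ℝ≥0, s ≤ t → ∀ A, MeasurableSet[obs s] A →
    ∫ ω in A, (g t ω - g s ω) ∂P = ∫ ω in A, (∫ r in (s : ℝ)..t, ℓ r.toNNReal ω) ∂P) →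
  ∀ t : ℝ≥0, ∫ ω, g (min (hT c m ω) t).toNNReal ω ∂P - ∫ ω, g 0 ω ∂P
    = ∫ ω, (∫ r in (0 : ℝ)..((min (hT c m ω) t).toNNReal : ℝ), ℓ r.toNNReal ω) ∂P

/-- (M) the clocks and the policy: measurability.  `J_prog : IsProgressive obs J` says that `J`
restricted to `[0,t] × Ω` is `Borel ⊗ obs t` measurable.  Joint measurability on `ℝ≥0 × Ω`: a
countable union over `t = n`.  The clock is a parametric integral (Fubini: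
`Measurable.stronglyMeasurable...integral_prod_left'` with the σ-algebra `obs t` on `Ω`). -/
def S_CLK : Prop := ∀ (N : ℕ) (μ : ℝ) (Ω : Type u) [mΩ : MeasurableSpace Ω] (P : Measure Ω)
  [IsProbabilityMeasure P] (π : Policy N μ Ω P),
  (∀ t, Measurable[π.obs t] (clock π.J t)) ∧
  (∀ ω, Continuous fun t => clock π.J t ω) ∧ (∀ ω j, clock π.J 0 ω j = 0) ∧
  Measurable (fun p : ℝ≥0 × Ω => π.J p.1 p.2) ∧ (∀ t, Measurable[π.obs t] (π.J t)) ∧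
  (∀ t ω, post μ π.X π.J t ω = sm (lin μ (π.X t ω, clock π.J t ω)))

/-- the drift of `ff` in the filtration of the searcher -/
noncomputable def lam (N : ℕ) (q μ δ : ℝ) (y : (Fin N → ℝ) × (Fin N → ℝ)) (j : Fin N) : ℝ :=
  (1 / 2) * μ ^ 2 * ff N q μ δ y * (δ ^ 2 * G1 N q (lin μ y) j ^ 2 - δ * BB N q (lin μ y) j)

/-- (M/L) projection on the searcher's filtration.  deps S_CLK, S_TST, S_GBD, S_SMD, S_GC2,
S_PTC, S_PHD (continuity of `G1`, `BB` in `ξ`, for measurability).  The martingale property of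
`dynamics (ff ..)` on `A ∈ obs s ⊆ full s` gives
`∫_A (f_t - f_s) = ∫_A ∫_s^t gen`.  By S_TST `gen = lam - δ μ² (1_{J_r = jstar} - π_{J_r}(r)) h_r`
with `h_r = f G1` bounded (`|G1| ≤ K`, `0 < f ≤ e^{δ K}`) and, by Fubini, it suffices that for every
`r ≥ s`:  `E[1_A (1_{J_r = jstar} - π_{J_r}(r)) h_r] = 0`.  Split over the value `j` of `J_r`: the
event `A ∩ {J_r = j}` is in `obs r`, `h_r` on it is the bounded `obs r`-measurable function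
`f G1(·, j)`, and `bayes r j` says `E[1_{jstar = j} | obs r] = π_j(r)`. -/
def S_OBS : Prop := ∀ (N : ℕ), 2 ≤ N → ∀ q : ℝ, 1 / (N : ℝ) ≤ q → q < 1 → ∀ μ δ : ℝ, 0 < δ →
  ∀ (Ω : Type u) [mΩ : MeasurableSpace Ω] (P : Measure Ω)
  [IsProbabilityMeasure P] (π : Policy N μ Ω P) (s t : ℝ≥0), s ≤ t →
  ∀ A, MeasurableSet[π.obs s] A →
    ∫ ω in A, (ff N q μ δ (π.X t ω, clock π.J t ω) - ff N q μ δ (π.X s ω, clock π.J s ω)) ∂P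
    = ∫ ω in A, (∫ r in (s : ℝ)..t,
        lam N q μ δ (π.X r.toNNReal ω, clock π.J r.toNNReal ω) (π.J r.toNNReal ω)) ∂P

/-- (M) deps S_CLK, S_OBS, S_OPT, S_GBD, S_TST, S_GC2, S_PTC, S_PHD, S_SMD.  S_OPT applied to
`g t ω = ff (X t ω, clock t ω)`, `m = post`, `ℓ = lam`; `g 0 = exp(-δ G(0)) = 1` because all
coordinates of the softmax are `1/N` and `phi(1/N) = 0`. -/
def S_EXP : Prop := ∀ (N : ℕ), 2 ≤ N → ∀ ε : ℝ, 0 < ε → 1 / (N : ℝ) ≤ 1 - ε → ∀ μ δ : ℝ, 0 < δ →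
  ∀ (Ω : Type u) [mΩ : MeasurableSpace Ω] (P : Measure Ω)
  [IsProbabilityMeasure P] (π : Policy N μ Ω P) (t : ℝ≥0),
  Measurable (stopT ε π) ∧
  Measurable (fun ω => ff N (1 - ε) μ δ (π.X (min (stopT ε π ω) t).toNNReal ω,
      clock π.J (min (stopT ε π ω) t).toNNReal ω)) ∧
  ∫ ω, ff N (1 - ε) μ δ (π.X (min (stopT ε π ω) t).toNNReal ω,
      clock π.J (min (stopT ε π ω) t).toNNReal ω) ∂P - 1
    = ∫ ω, (∫ r in (0 : ℝ)..((min (stopT ε π ω) t).toNNReal : ℝ),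
        lam N (1 - ε) μ δ (π.X r.toNNReal ω, clock π.J r.toNNReal ω) (π.J r.toNNReal ω)) ∂P

/-- (S/M) pathwise facts on the stopping time, by continuity of `t ↦ post t ω`
(S_CLK, `X_cont`).  dep S_CLK.  Before `T` all posteriors are `< 1 - ε`; at `T < ∞` the largest
equals `1 - ε` (at time `0` all are `1/N ≤ 1 - ε`). -/
def S_HIT : Prop := ∀ (N : ℕ), 2 ≤ N → ∀ ε : ℝ, 1 / (N : ℝ) ≤ 1 - ε → ∀ μ : ℝ,
  ∀ (Ω : Type u) [mΩ : MeasurableSpace Ω] (P : Measure Ω)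
  [IsProbabilityMeasure P] (π : Policy N μ Ω P) (ω : Ω),
  (∀ t : ℝ≥0, (t : ℝ≥0∞) < stopT ε π ω → ∀ j, post μ π.X π.J t ω j < 1 - ε) ∧
  (stopT ε π ω ≠ ∞ → (∃ j, post μ π.X π.J (stopT ε π ω).toNNReal ω j = 1 - ε) ∧
    ∀ i, post μ π.X π.J (stopT ε π ω).toNNReal ω i ≤ 1 - ε)

/-- (M) THE LOWER BOUND.  deps S_EXP, S_HIT, S_CLK, S_JNB, S_FCE, S_GBD, S_SMD.  Put
`q = 1 - ε`, `V = VV N q`, `K` from S_GBD.  `ftlCost = 2 V/μ²`.  If `E T = ∞` nothing to prove.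
Otherwise `T < ∞` a.s.  For `r < T` `BB ≤ 1` (S_HIT, S_JNB) and `0 < f ≤ e^{δK}`, so
`lam ≥ -½ μ² δ e^{δK}` and S_EXP gives `E[f(T∧t)] - 1 ≥ -½ μ² δ e^{δK} E[T∧t] ≥
-½ μ² δ e^{δK} E T`.  As `t → ∞` `f(T∧t) → f(T) ≤ e^{-δV}` (S_HIT, S_FCE; bounded convergence), so
`½ μ² e^{δK} E T ≥ (1 - e^{-δV})/δ` for all `δ > 0`; let `δ → 0+`. -/
def S_LOW : Prop := ∀ (N : ℕ), 2 ≤ N → ∀ ε : ℝ, 0 < ε → 1 / (N : ℝ) ≤ 1 - ε → ∀ μ : ℝ, 0 < μ →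
  ∀ (Ω : Type u) [mΩ : MeasurableSpace Ω] (P : Measure Ω)
  [IsProbabilityMeasure P] (π : Policy N μ Ω P),
  ENNReal.ofReal (ftlCost N μ ε) ≤ ∫⁻ ω, stopT ε π ω ∂P

/-- (M) THE COST OF A POLICY OF LEADER AND EQUAL FOLLOWERS.  deps S_EXP, S_HIT, S_CLK, S_BEQ,
S_GBD, S_SMD.  Same notation.  For `r < T` `BB(·, J_r) = 1`, `0 ≤ G ≤ V` (S_BEQ), so
`lam = -½ μ² δ f (1 - δ G1²) ≤ -½ μ² δ (1 - δK²) e^{-δV}` when `δ K² < 1`; at `T∧t` also `G ≤ V` by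
continuity (or directly).  S_EXP gives
`½ μ² δ (1 - δK²) e^{-δV} E[T∧t] ≤ 1 - e^{-δV}`; `t → ∞` (monotone convergence) and `δ → 0+` give
`½ μ² E T ≤ V`. -/
def S_UPP : Prop := ∀ (N : ℕ), 2 ≤ N → ∀ ε : ℝ, 0 < ε → 1 / (N : ℝ) ≤ 1 - ε → ∀ μ : ℝ, 0 < μ →
  ∀ (Ω : Type u) [mΩ : MeasurableSpace Ω] (P : Measure Ω)
  [IsProbabilityMeasure P] (π : Policy N μ Ω P), LeaderFollowers ε π →
  ∫⁻ ω, stopT ε π ω ∂P ≤ ENNReal.ofReal (ftlCost N μ ε)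

end H5.FL
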