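import Pool.Agent.H5.FL.Stm

/-!
# Second batch of parts (crew FL): follow-the-leader keeps the followers equal

With this the final theorem reads: every policy costs at least `ftlCost`, and EVERY
follow-the-leader policy (any rule for ties) costs exactly `ftlCost`.
-/

set_option autoImplicit false

open MeasureTheory ProbabilityTheory Filter Topology
open scoped NNReal ENNReal

universe u

namespace H5.FL

/-- log-likelihood coordinates of a policy -/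
noncomputable def xi {N : ℕ} {μ : ℝ} {Ω : Type u} [MeasurableSpace Ω] {P : Measure Ω}
    (π : Policy N μ Ω P) (t : ℝ≥0) (ω : Ω) : Fin N → ℝ :=
  lin μ (π.X t ω, clock π.J t ω)

/-- A follow-the-leader policy: it always observes a box of largest current posterior
probability (no matter how ties are broken). -/
def IsFTL {N : ℕ} {μ : ℝ} {Ω : Type u} [MeasurableSpace Ω] {P : Measure Ω}
    (π : Policy N μ Ω P) : Prop :=
  ∀ᵐ ω ∂P, ∀ (t : ℝ≥0) (i : Fin N),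
    post μ π.X π.J t ω i ≤ post μ π.X π.J t ω (π.J t ω)

/-- `χ_η(x) = x³/(x²+η²)` for `x > 0`, `0` for `x ≤ 0`. -/
noncomputable def chi (η x : ℝ) : ℝ := (max x 0) ^ 3 / (x ^ 2 + η ^ 2)

/-- error bound `6 η⁴ x⁴/(x²+η²)⁴`, between `0` and `1`, tends to `0` as `η → 0` for fixed `x`. -/
noncomputable def wEr (η x : ℝ) : ℝ := 6 * η ^ 4 * x ^ 4 / (x ^ 2 + η ^ 2) ^ 4

/-- (M) calculus of `χ_η`, `η > 0`.  For `x > 0`: `χ' = x²(x²+3η²)/(x²+η²)² ∈ [0,2]`,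
`χ'' = 2η² x (3η²-x²)/(x²+η²)³`; all vanish for `x ≤ 0`.  If `y ≤ x` then (`χ` is nondecreasing)
`χ''(x) χ(y) ≤ 6η⁴x/(x²+η²)³ · x³/(x²+η²) = wEr` for `x > 0` and both sides are `0` or fine for
`x ≤ 0` (`χ''(x) = 0`). -/
def S_CHI : Prop := ∀ η : ℝ, 0 < η → ContDiff ℝ 2 (chi η) ∧
  (∀ x, 0 ≤ chi η x ∧ chi η x ≤ max x 0) ∧ (∀ x, x ≤ 0 → chi η x = 0) ∧
  (∀ x, 0 ≤ deriv (chi η) x ∧ deriv (chi η) x ≤ 2) ∧
  (∀ x, x ≤ 0 → deriv (chi η) x = 0 ∧ deriv (deriv (chi η)) x = 0) ∧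
  (∃ K, ∀ x, |deriv (deriv (chi η)) x| ≤ K) ∧
  (∀ x y, y ≤ x → deriv (deriv (chi η)) x * chi η y ≤ wEr η x) ∧
  (∀ x, 0 ≤ wEr η x ∧ wEr η x ≤ 1)

/-- (S) limits `η = 1/(n+1) → 0`: `χ_η(x) → max x 0` and `wEr η x → 0`. -/
def S_CHL : Prop := ∀ x : ℝ,
  Tendsto (fun n : ℕ => chi (1 / ((n : ℝ) + 1)) x) atTop (𝓝 (max x 0)) ∧
  Tendsto (fun n : ℕ => wEr (1 / ((n : ℝ) + 1)) x) atTop (𝓝 0)

/-- `v_a = 1 - C e^{-ξ_a}` -/
noncomputable def vv {N : ℕ} (C μ : ℝ) (y : (Fin N → ℝ) × (Fin N → ℝ)) (a : Fin N) : ℝ :=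
  1 - C * Real.exp (-(lin μ y a))

/-- the test function `χ_η(v_a) χ_η(v_b)` -/
noncomputable def uu {N : ℕ} (C η μ : ℝ) (a b : Fin N) (y : (Fin N → ℝ) × (Fin N → ℝ)) : ℝ :=
  chi η (vv C μ y a) * chi η (vv C μ y b)

/-- (M) the generator of `uu`.  dep S_CHI.  `v ≤ 1`, `χ(v) ≤ 1`, and everything vanishes where
`v ≤ 0`, while `v' := C e^{-ξ} = 1 - v ∈ (0,1]` where `v ≥ 0` (derivative in `ξ`), `v'' = -v'`.
Along the coordinate `j = a` (`ξ_a` moves with speed `μ` in `x_a`, `-½ μ²` in `τ_a`)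
`gen = ½ μ² χ(v_b) [χ''(v_a) v_a'² - χ'(v_a) v_a' + (2h - 1) χ'(v_a) v_a']
     = ½ μ² χ(v_b) [χ''(v_a) v_a'² - 2(1-h) χ'(v_a) v_a'] ≤ ½ μ² max(χ''(v_a) χ(v_b), 0)`
`≤ ½ μ² wEr η v_a` if `ξ_b ≤ ξ_a` (so `v_b ≤ v_a`; `h = 1_{hit}`).  If `j ∉ {a,b}` it is `0`. -/
def S_UUT : Prop := ∀ (N : ℕ) (C η μ : ℝ), 0 < C → 0 < η → ∀ a b : Fin N, a ≠ b →
  IsTest (uu C η μ a b) ∧
  ∀ (x τ : Fin N → ℝ) (j : Fin N) (hit : Prop) [Decidable hit],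
    lin μ (x, τ) a ≤ lin μ (x, τ) j → lin μ (x, τ) b ≤ lin μ (x, τ) j →
    gen μ (uu C η μ a b) x τ j hit ≤ (1 / 2) * μ ^ 2 * wEr η (vv C μ (x, τ) j)

/-- (M) pairwise minima do not increase, fixed times.  deps S_UUT, S_CHI, S_CHL, S_CLK.
`A = {ξ_a(s) ≤ c ∨ ξ_b(s) ≤ c} ∈ obs s ⊆ full s`, `C = e^c`: on `A` `uu = 0` at time `s`.
`dynamics (uu ..)` gives `E[1_A uu_t] = E[1_A ∫_s^t gen] ≤ ½ μ² E ∫_s^t wEr η (v_{J_r}(r)) dr`
(follow-the-leader: `ξ_i(r) ≤ ξ_{J_r}(r)`, because softmax is monotone).  Let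
`η = 1/(n+1) → 0` (bounded convergence): `E[1_A max(v_a(t),0) max(v_b(t),0)] ≤ 0`. -/
def S_PM1 : Prop := ∀ (N : ℕ) (μ : ℝ) (Ω : Type u) [mΩ : MeasurableSpace Ω] (P : Measure Ω)
  [IsProbabilityMeasure P] (π : Policy N μ Ω P), 2 ≤ N → IsFTL π → ∀ a b : Fin N, a ≠ b →
  ∀ (s t : ℝ≥0) (c : ℝ), s ≤ t →
  ∀ᵐ ω ∂P, min (xi π s ω a) (xi π s ω b) ≤ c → min (xi π t ω a) (xi π t ω b) ≤ c

/-- (S) all times.  deps S_PM1, S_CLK: rational `s, t, c`, then continuity. -/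
def S_PM2 : Prop := ∀ (N : ℕ) (μ : ℝ) (Ω : Type u) [mΩ : MeasurableSpace Ω] (P : Measure Ω)
  [IsProbabilityMeasure P] (π : Policy N μ Ω P), 2 ≤ N → IsFTL π →
  ∀ᵐ ω ∂P, ∀ a b : Fin N, a ≠ b → ∀ s t : ℝ≥0, s ≤ t →
    min (xi π t ω a) (xi π t ω b) ≤ min (xi π s ω a) (xi π s ω b)

/-- (S) test functions of one coordinate: for `F : ℝ → ℝ` `C²`, bounded with bounded `F'`, `F''`,
`f(x,τ) = F(x_i)` is a test function and its generator vanishes while another box is observed. -/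
def S_COT : Prop := ∀ (N : ℕ) (μ : ℝ) (i : Fin N) (F : ℝ → ℝ), ContDiff ℝ 2 F →
  (∃ K, ∀ x, |F x| ≤ K ∧ |deriv F x| ≤ K ∧ |deriv (deriv F) x| ≤ K) →
  IsTest (fun y : (Fin N → ℝ) × (Fin N → ℝ) => F (y.1 i)) ∧
  (∀ (x τ : Fin N → ℝ) (j : Fin N) (hit : Prop) [Decidable hit], j ≠ i →
    gen μ (fun y : (Fin N → ℝ) × (Fin N → ℝ) => F (y.1 i)) x τ j hit = 0) ∧
  (∃ K, ∀ (x τ : Fin N → ℝ) (j : Fin N) (hit : Prop) [Decidable hit],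
    |gen μ (fun y : (Fin N → ℝ) × (Fin N → ℝ) => F (y.1 i)) x τ j hit| ≤ K)

/-- (S) `arctan` and `arctan²` qualify for S_COT. -/
def S_ATN : Prop := ∀ k : ℕ, k = 1 ∨ k = 2 → ContDiff ℝ 2 (fun x => Real.arctan x ^ k) ∧
  ∃ K, ∀ x, |Real.arctan x ^ k| ≤ K ∧ |deriv (fun x => Real.arctan x ^ k) x| ≤ K ∧
    |deriv (deriv (fun x => Real.arctan x ^ k)) x| ≤ K

/-- (L) stopped martingale identity for one coordinate.  deps S_OPT, S_COT, S_CLK.  Fix `s`, `i`,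
`A ∈ full s`, `F` as in S_COT, `d : ℝ≥0`.  Let `σ` be the hitting time of
`{ξ_i(s+r) - max_k ξ_k(s+r) ≥ 0}`.  S_OPT with `obs := full (s + ·)` (a filtration),
`g r = 1_A F(X_i(s+r))`, `ℓ r = 1_A gen(...)(s+r)`,
`m r = ξ_i(s+r) - sup_k ξ_k(s+r)` (`Fin 1`), `c = 0`.  Before `σ` `J ≠ i` (follow-the-leader), so
`ℓ = 0` a.s. and `E[1_A F(X_i(s + σ∧d))] = E[1_A F(X_i(s))]`. -/
def S_STP : Prop := ∀ (N : ℕ) (μ : ℝ) (Ω : Type u) [mΩ : MeasurableSpace Ω] (P : Measure Ω)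
  [IsProbabilityMeasure P] (π : Policy N μ Ω P), 2 ≤ N → IsFTL π → ∀ (i : Fin N) (F : ℝ → ℝ),
  ContDiff ℝ 2 F → (∃ K, ∀ x, |F x| ≤ K ∧ |deriv F x| ≤ K ∧ |deriv (deriv F) x| ≤ K) →
  ∀ (s d : ℝ≥0) (A : Set Ω), MeasurableSet[π.full s] A →
  ∫ ω in A, F (π.X (s + (min (hT (N := 1) 0 (fun r ω _ => xi π (s + r) ω i - ⨆ k, xi π (s + r) ω k) ω)
      (d : ℝ≥0∞)).toNNReal) ω i) ∂P = ∫ ω in A, F (π.X s ω i) ∂P

/-- (M) a box that is not a leader does not move (fixed times).  deps S_STP, S_ATN, S_CLK.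
With `Z₀ = arctan X_i(s)`, `Z₁ = arctan X_i(s + σ∧d)`: S_STP for `arctan` gives
`E[Z₁ 1_A] = E[Z₀ 1_A]` for all `A ∈ full s`, so `E[Z₁ Z₀] = E[Z₀²]` (`Z₀` is `full s`-measurable and
bounded: `E[Z₁ | full s] = Z₀`), and for `arctan²` `E[Z₁²] = E[Z₀²]`; hence `E[(Z₁-Z₀)²] = 0` and
`X_i(s + σ∧d) = X_i(s)` a.s.  If `i` is not a leader during `[s,s+d]` then `σ > d`
(continuity, compactness: the sup over `[0,d]` of the continuous function is `< 0`) and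
`σ∧d = d`. -/
def S_NM1 : Prop := ∀ (N : ℕ) (μ : ℝ) (Ω : Type u) [mΩ : MeasurableSpace Ω] (P : Measure Ω)
  [IsProbabilityMeasure P] (π : Policy N μ Ω P), 2 ≤ N → IsFTL π → ∀ (i : Fin N) (s t : ℝ≥0),
  s ≤ t → ∀ᵐ ω ∂P, (∀ r, s ≤ r → r ≤ t → ∃ k, xi π r ω i < xi π r ω k) →
    π.X t ω i = π.X s ω i

/-- (S) all times, and for the log-likelihood.  deps S_NM1, S_CLK.  Rational times and
continuity; the clock of `i` does not run when `J_r ≠ i` for all `r ∈ [s,t]`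
(follow-the-leader: `J_r = i` would make `i` a leader). -/
def S_NM2 : Prop := ∀ (N : ℕ) (μ : ℝ) (Ω : Type u) [mΩ : MeasurableSpace Ω] (P : Measure Ω)
  [IsProbabilityMeasure P] (π : Policy N μ Ω P), 2 ≤ N → IsFTL π →
  ∀ᵐ ω ∂P, ∀ (i : Fin N) (s t : ℝ≥0), s ≤ t →
    (∀ r, s ≤ r → r ≤ t → ∃ k, xi π r ω i < xi π r ω k) → xi π t ω i = xi π s ω i

/-- (S) deterministic.  Suppose `x t i < x t k ≤ x t L`, `L = J t`, `i, k ≠ L`; `κ := x t k` is the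
minimum of the pair `(k,L)` at `t`, so `x r k ≥ κ` for `r ≤ t` and `κ ≤ x 0 k = 0`.
`x 0 i = 0 ≥ κ > x t i`; let `r₀` be the last time `≤ t` with `x r₀ i ≥ κ`.  On `(r₀,t]`
`x r i < κ ≤ x r k`, so `x · i` is constant on `(r₀,t]` and by continuity `x r₀ i = x t i < κ`,
contradiction. -/
def S_DET : Prop := ∀ (N : ℕ) (x : ℝ≥0 → Fin N → ℝ) (J : ℝ≥0 → Fin N), Continuous x →
  (∀ j, x 0 j = 0) → (∀ t i, x t i ≤ x t (J t)) →
  (∀ a b, a ≠ b → ∀ s t, s ≤ t → min (x t a) (x t b) ≤ min (x s a) (x s b)) →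
  (∀ i s t, s ≤ t → (∀ r, s ≤ r → r ≤ t → ∃ k, x r i < x r k) → x t i = x s i) →
  ∀ t i k, i ≠ J t → k ≠ J t → x t i = x t k

/-- (S) deps S_PM2, S_NM2, S_DET, S_CLK, S_SMD.  Every follow-the-leader policy has a leader and
equal followers (softmax is monotone; the common value is `(1 - π_J)/(N-1)` because the
posteriors sum to `1`). -/
def S_FLF : Prop := ∀ (N : ℕ) (μ : ℝ) (Ω : Type u) [mΩ : MeasurableSpace Ω] (P : Measure Ω)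
  [IsProbabilityMeasure P] (π : Policy N μ Ω P) (ε : ℝ), 2 ≤ N → IsFTL π → LeaderFollowers ε π

end H5.FL
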